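import Pool.Agent.W890.LC.Mark

/-!
# Digraphs with closed walks of all large lengths at one vertex: colouring in polynomial time
-/

namespace Pool.Agent.W890.LC

open Pool.Agent.NPC Pool.Agent.NPC.PIso
open Pool.Agent.W903.GP (pconst srch srch_spec srch_of iterate_inv inv_length iter_length
  srch_iterate_le)

variable {k : ℕ}

/-! ### Some polynomial-time functions -/

theorem poly_iter {α : Type} [TEnc α] {g : List Bool → List Bool} (hg : Pool.Agent.NPC.Poly g)
    (hlen : ∀ x, (g x).length = x.length) {n : α → ℕ} (hn : UPoly n) {x : α → List Bool}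
    (hx : Pool.Agent.NPC.Poly x) : Pool.Agent.NPC.Poly (fun a => g^[n a] (x a)) := by
  obtain ⟨p, hp⟩ := hx.sz_le
  refine (Poly.iterLen (l := fun a => List.replicate (n a) ()) (s := x) (F := fun _ s => g s) hn hx
    (hg.comp (Poly.snd Pool.Agent.NPC.Poly.id)) (Polynomial.C 4 * p + 1) ?_).congr fun a => ?_
  · intro a i _
    have h1 := sz_listBool_le (g^[i] (x a))
    rw [iter_length hlen] at h1
    have h2 := sz_listBool_ge (x a)
    have h3 := hp a
    simp only [Polynomial.eval_add, Polynomial.eval_mul, Polynomial.eval_C, Polynomial.eval_one]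
    change sz (g^[i] (x a)) ≤ _
    omega
  · rw [List.length_replicate]

theorem poly_iterC {α : Type} [TEnc α] {g : List Bool → List Bool} (hg : Pool.Agent.NPC.Poly g)
    {x : α → List Bool} (hx : Pool.Agent.NPC.Poly x) (j : ℕ) :
    Pool.Agent.NPC.Poly (fun a => g^[j] (x a)) := by
  induction j with
  | zero => exact hx
  | succ j ih => exact (hg.comp ih).congr fun a => (Function.iterate_succ_apply' g j (x a)).symm

theorem srch_congr {P P' : ℕ → Bool} {n : ℕ} (h : ∀ i < n, P i = P' i) : srch P n = srch P' n := by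
  induction n with
  | zero => rfl
  | succ n ih =>
    have ih' := ih fun i hi => h i (by omega)
    have e : ∀ Q : ℕ → Bool, srch Q (n + 1) = bif Q (srch Q n) then srch Q n else srch Q n + 1 :=
      fun Q => by unfold srch; rw [Function.iterate_succ_apply']
    rw [e, e, ← ih', h _ (by have := (srch_spec P n).1; omega)]

theorem poly_srch {α : Type} [TEnc α] {P : α → ℕ → Bool} {N : α → ℕ}
    (hP : Pool.Agent.NPC.Poly (fun p : α × ℕ => P p.1 p.2)) (hN : UPoly N) :
    Pool.Agent.NPC.Poly (fun a => srch (P a) (N a)) := by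
  obtain ⟨p, hp⟩ := hN.toPoly.sz_le
  refine (Poly.iterLen (l := fun a => List.replicate (N a) ()) (s := fun _ => (0 : ℕ))
    (F := fun a k => bif P a k then k else k + 1) hN (pconst 0)
    (Poly.cond hP (Poly.snd Pool.Agent.NPC.Poly.id) (Poly.succ (Poly.snd Pool.Agent.NPC.Poly.id)))
    (Polynomial.C 2 * p) ?_).congr fun a => ?_
  · intro a i hi
    rw [List.length_replicate] at hi
    have h1 := srch_iterate_le (P a) i
    have h2 := sz_nat_mono_le (h1.trans hi)
    have h3 := hp a
    simp only [Polynomial.eval_mul, Polynomial.eval_C]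
    omega
  · rw [List.length_replicate]; rfl

/-- searching along an orbit -/
theorem poly_srch_iter {g : List Bool → List Bool} (hg : Pool.Agent.NPC.Poly g)
    (hlen : ∀ x, (g x).length = x.length) {mk : List Bool → Bool} (hmk : Pool.Agent.NPC.Poly mk)
    {R : List Bool → ℕ} (hR : UPoly R) :
    Pool.Agent.NPC.Poly (fun x : List Bool => srch (fun d => mk (g^[d] x)) (R x)) := by
  have h1 : UPoly (fun p : List Bool × ℕ => min p.2 (R p.1)) :=
    UPoly.of_le (Poly.min (Poly.snd Pool.Agent.NPC.Poly.id)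
      (hR.toPoly.comp (Poly.fst Pool.Agent.NPC.Poly.id)))
      (hR.comp (Poly.fst Pool.Agent.NPC.Poly.id)) fun p => min_le_right _ _
  have h2 := poly_iter hg hlen h1 (Poly.fst Pool.Agent.NPC.Poly.id)
  refine (poly_srch (P := fun x d => mk (g^[min d (R x)] x)) (hmk.comp h2) hR).congr fun x => ?_
  refine srch_congr fun i hi => ?_
  rw [min_eq_left hi.le]

theorem poly_allC {α : Type} [TEnc α] {P : ℕ → α → Bool} (hP : ∀ j, Pool.Agent.NPC.Poly (P j))
    (n : ℕ) : Pool.Agent.NPC.Poly (fun a => (List.range n).all (fun j => P j a)) := by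
  induction n with
  | zero => exact pconst true
  | succ n ih =>
    refine (Poly.and ih (hP n)).congr fun a => ?_
    rw [List.range_succ, List.all_append]
    simp

theorem poly_anyC {α : Type} [TEnc α] {P : ℕ → α → Bool} (hP : ∀ j, Pool.Agent.NPC.Poly (P j))
    (n : ℕ) : Pool.Agent.NPC.Poly (fun a => (List.range n).any (fun j => P j a)) := by
  induction n with
  | zero => exact pconst false
  | succ n ih =>
    refine (Poly.or ih (hP n)).congr fun a => ?_
    rw [List.range_succ, List.any_append]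
    simp

/-! ### The first difference -/

/-- the first place where two strings differ -/
def dif (u v : List Bool) : ℕ :=
  srch (fun i => !decide (u.getD i false = v.getD i false)) u.length

/-- the first place where two strings differ, together with the bit found there -/
def dcol (u v : List Bool) : ℕ := 2 * dif u v + bif u.getD (dif u v) false then 1 else 0

theorem dif_le (u v : List Bool) : dif u v ≤ u.length := (srch_spec _ _).1

theorem dcol_le (u v : List Bool) : dcol u v ≤ 2 * u.length + 1 := by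
  unfold dcol
  have := dif_le u v
  cases u.getD (dif u v) false <;> simp <;> omega

theorem dif_spec {u v : List Bool} (hl : u.length = v.length) (h : u ≠ v) :
    u.getD (dif u v) false ≠ v.getD (dif u v) false := by
  have h1 : ∃ j < u.length, (!decide (u.getD j false = v.getD j false)) = true := by
    by_contra hcon
    push Not at hcon
    apply h
    apply List.ext_getElem hl
    intro i hi hi'
    have := hcon i hi
    simp only [Bool.not_eq_true, Bool.not_eq_false', decide_eq_true_eq] at this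
    rw [List.getD_eq_getElem _ _ hi, List.getD_eq_getElem _ _ hi'] at this
    exact this
  obtain ⟨j, hj, h1⟩ := h1
  have h2 := (srch_of (P := fun i => !decide (u.getD i false = v.getD i false)) hj h1).2
  simp only [Bool.not_eq_true', decide_eq_false_iff_not] at h2
  exact h2

theorem dcol_ne {u v w : List Bool} (hl : u.length = v.length) (h : u ≠ v) :
    dcol u v ≠ dcol v w := by
  intro he
  have h1 := dif_spec hl h
  unfold dcol at he
  have h2 : dif u v = dif v w := by
    cases h3 : u.getD (dif u v) false <;> cases h4 : v.getD (dif v w) false <;>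
      rw [h3, h4] at he <;> simp only [cond_true, cond_false] at he <;> omega
  rw [← h2] at he
  cases h3 : u.getD (dif u v) false <;> cases h4 : v.getD (dif u v) false <;>
    rw [h3, h4] at he h1 <;> simp at he h1

theorem poly_dcol {α : Type} [TEnc α] {u v : α → List Bool} (hu : Pool.Agent.NPC.Poly u)
    (hv : Pool.Agent.NPC.Poly v) : Pool.Agent.NPC.Poly (fun a => dcol (u a) (v a)) := by
  have h1 : Pool.Agent.NPC.Poly (fun a => dif (u a) (v a)) := by
    unfold dif
    refine poly_srch (P := fun a i => !decide ((u a).getD i false = (v a).getD i false))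
      (N := fun a => (u a).length) ?_ (UPoly.length hu)
    exact Poly.not (Poly.decide_eq
      (Poly.getD (hu.comp (Poly.fst Pool.Agent.NPC.Poly.id)) (Poly.snd Pool.Agent.NPC.Poly.id)
        (pconst false))
      (Poly.getD (hv.comp (Poly.fst Pool.Agent.NPC.Poly.id)) (Poly.snd Pool.Agent.NPC.Poly.id)
        (pconst false)))
  unfold dcol
  exact Poly.add (Poly.mul (pconst 2) h1)
    (Poly.cond (Poly.getD hu h1 (pconst false)) (pconst 1) (pconst 0))

theorem poly_natPair {α : Type} [TEnc α] {m n : α → ℕ} (hm : Pool.Agent.NPC.Poly m)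
    (hn : Pool.Agent.NPC.Poly n) : Pool.Agent.NPC.Poly (fun a => Nat.pair (m a) (n a)) := by
  refine (Poly.cond (Poly.decide_lt hm hn) (Poly.add (Poly.mul hn hn) hm)
    (Poly.add (Poly.add (Poly.mul hm hm) hm) hn)).congr fun a => ?_
  unfold Nat.pair
  by_cases h : m a < n a
  · rw [decide_eq_true h, cond_true, if_pos h]
  · rw [decide_eq_false h, cond_false, if_neg h]

/-! ### A colouring separating the points at distance at most `M` -/

/-- the colour -/
def col (f : List Bool → List Bool) : ℕ → List Bool → ℕ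
  | 0, _ => 0
  | j + 1, x => Nat.pair (col f j x) (dcol x (f^[j + 1] x))

/-- a bound for the colours -/
def bnd : ℕ → ℕ → ℕ
  | 0, _ => 1
  | j + 1, n => (bnd j n + 2 * n + 3) * (bnd j n + 2 * n + 3)

theorem col_lt (f : List Bool → List Bool) (j : ℕ) (x : List Bool) :
    col f j x < bnd j x.length := by
  induction j with
  | zero => exact Nat.one_pos
  | succ j ih =>
    have h1 := Nat.pair_lt_max_add_one_sq (col f j x) (dcol x (f^[j + 1] x))
    have h2 := dcol_le x (f^[j + 1] x)
    have h3 : max (col f j x) (dcol x (f^[j + 1] x)) + 1 ≤ bnd j x.length + 2 * x.length + 3 := by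
      have : max (col f j x) (dcol x (f^[j + 1] x)) ≤ bnd j x.length + 2 * x.length + 1 :=
        max_le (by omega) (by omega)
      omega
    calc col f (j + 1) x < (max (col f j x) (dcol x (f^[j + 1] x)) + 1) ^ 2 := h1
      _ ≤ (bnd j x.length + 2 * x.length + 3) ^ 2 := Nat.pow_le_pow_left h3 2
      _ = bnd (j + 1) x.length := by rw [sq]; rfl

theorem bnd_pos (j n : ℕ) : 0 < bnd j n := by
  cases j with
  | zero => exact Nat.one_pos
  | succ j => unfold bnd; positivity

theorem col_inj {f : List Bool → List Bool} {M : ℕ} {x y : List Bool}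
    (h : col f M x = col f M y) (j : ℕ) (h1 : 1 ≤ j) (h2 : j ≤ M) :
    dcol x (f^[j] x) = dcol y (f^[j] y) := by
  induction M with
  | zero => omega
  | succ M ih =>
    unfold col at h
    rw [Nat.pair_eq_pair] at h
    by_cases h3 : j = M + 1
    · rw [h3]; exact h.2
    · exact ih h.1 (by omega)

theorem col_ne {f : List Bool → List Bool} (hlen : ∀ x, (f x).length = x.length) {M : ℕ}
    {x : List Bool} {j : ℕ} (h1 : 1 ≤ j) (h2 : j ≤ M) (h : f^[j] x ≠ x) :
    col f M (f^[j] x) ≠ col f M x := by
  intro he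
  refine dcol_ne (u := x) (v := f^[j] x) (w := f^[j] (f^[j] x)) ?_ (Ne.symm h) ?_
  · rw [iter_length hlen]
  · exact col_inj he.symm j h1 h2

theorem poly_col {f : List Bool → List Bool} (hf : Pool.Agent.NPC.Poly f) (j : ℕ) :
    Pool.Agent.NPC.Poly (col f j) := by
  induction j with
  | zero => exact pconst 0
  | succ j ih =>
    exact poly_natPair ih (poly_dcol Pool.Agent.NPC.Poly.id
      (poly_iterC hf Pool.Agent.NPC.Poly.id (j + 1)))

theorem upoly_bnd (j : ℕ) : UPoly (fun x : List Bool => bnd j x.length) := by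
  induction j with
  | zero => exact UPoly.const 1
  | succ j ih =>
    have h1 : UPoly (fun x : List Bool => bnd j x.length + 2 * x.length + 3) :=
      (ih.add ((UPoly.const 2).mul (UPoly.length Pool.Agent.NPC.Poly.id))).add (UPoly.const 3)
    exact h1.mul h1

/-! ### The marked points -/

section marks

variable (f : Equiv.Perm (List Bool)) (M : ℕ)

/-- the cycle has length at most `M` -/
def shB (x : List Bool) : Bool := (List.range M).any (fun j => decide ((⇑f)^[j + 1] x = x))

/-- `x` is the smallest element -/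
def leB (x : List Bool) : Bool :=
  (List.range (M + 1)).all (fun j => decide (valB x ≤ valB ((⇑f)^[j] x)))

/-- `x` is a local maximum -/
def loB (x : List Bool) : Bool :=
  (List.range M).all (fun j => decide (col ⇑f M ((⇑f)^[j + 1] x) < col ⇑f M x) &&
    decide (col ⇑f M ((⇑f⁻¹)^[j + 1] x) < col ⇑f M x))

/-- the marked points -/
def mkF (x : List Bool) : Bool := bif shB f M x then leB f M x else loB f M x

/-- the bound for the search -/
def RF (n : ℕ) : ℕ := 2 * M * bnd M n + M + 1

variable {f M}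

theorem shB_iff {x : List Bool} : shB f M x = true ↔ ∃ L, 1 ≤ L ∧ L ≤ M ∧ (⇑f)^[L] x = x := by
  unfold shB
  rw [List.any_eq_true]
  constructor
  · rintro ⟨j, hj, h⟩
    rw [List.mem_range] at hj
    rw [decide_eq_true_iff] at h
    exact ⟨j + 1, by omega, by omega, h⟩
  · rintro ⟨L, h1, h2, h3⟩
    refine ⟨L - 1, by rw [List.mem_range]; omega, ?_⟩
    rw [decide_eq_true_iff, Nat.sub_add_cancel h1]
    exact h3

theorem leB_iff {x : List Bool} : leB f M x = true ↔ ∀ j ≤ M, valB x ≤ valB ((⇑f)^[j] x) := by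
  unfold leB
  rw [List.all_eq_true]
  constructor
  · intro h j hj
    have := h j (by rw [List.mem_range]; omega)
    rwa [decide_eq_true_iff] at this
  · intro h j hj
    rw [List.mem_range] at hj
    rw [decide_eq_true_iff]
    exact h j (by omega)

theorem loB_iff {x : List Bool} : loB f M x = true ↔ ∀ j, 1 ≤ j → j ≤ M →
    col ⇑f M ((⇑f)^[j] x) < col ⇑f M x ∧ col ⇑f M ((⇑f⁻¹)^[j] x) < col ⇑f M x := by
  unfold loB
  rw [List.all_eq_true]
  constructor
  · intro h j hj1 hj2
    have := h (j - 1) (by rw [List.mem_range]; omega)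
    rw [Bool.and_eq_true, decide_eq_true_iff, decide_eq_true_iff, Nat.sub_add_cancel hj1] at this
    exact this
  · intro h j hj
    rw [List.mem_range] at hj
    rw [Bool.and_eq_true, decide_eq_true_iff, decide_eq_true_iff]
    exact h (j + 1) (by omega) (by omega)

theorem poly_mkF (hf : Pool.Agent.NPC.Poly ⇑f) (hf' : Pool.Agent.NPC.Poly ⇑f⁻¹) :
    Pool.Agent.NPC.Poly (mkF f M) := by
  have h0 : Pool.Agent.NPC.Poly (fun x : List Bool => x) := Pool.Agent.NPC.Poly.id
  have hc := poly_col hf M
  refine Poly.cond ?_ ?_ ?_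
  · exact poly_anyC (P := fun j x => decide ((⇑f)^[j + 1] x = x))
      (fun j => Poly.decide_eq (poly_iterC hf h0 (j + 1)) h0) M
  · exact poly_allC (P := fun j x => decide (valB x ≤ valB ((⇑f)^[j] x)))
      (fun j => Poly.decide_le (Poly.valBits h0) (Poly.valBits (poly_iterC hf h0 j))) (M + 1)
  · exact poly_allC (P := fun j x => decide (col ⇑f M ((⇑f)^[j + 1] x) < col ⇑f M x) &&
      decide (col ⇑f M ((⇑f⁻¹)^[j + 1] x) < col ⇑f M x))
      (fun j => Poly.and (Poly.decide_lt (hc.comp (poly_iterC hf h0 (j + 1))) hc)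
        (Poly.decide_lt (hc.comp (poly_iterC hf' h0 (j + 1))) hc)) M

theorem upoly_RF : UPoly (fun x : List Bool => RF M x.length) :=
  ((((UPoly.const (2 * M)).mul (upoly_bnd M)).add (UPoly.const M)).add (UPoly.const 1))

theorem sh_apply {x : List Bool} {L : ℕ} (h : (⇑f)^[L] x = x) (i : ℕ) :
    (⇑f)^[L] ((⇑f)^[i] x) = (⇑f)^[i] x := by
  rw [← Function.iterate_add_apply, Nat.add_comm, Function.iterate_add_apply, h]

theorem sh_iter {x : List Bool} (h : shB f M x = true) (i : ℕ) :
    shB f M ((⇑f)^[i] x) = true := by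
  rw [shB_iff] at h ⊢
  obtain ⟨L, h1, h2, h3⟩ := h
  exact ⟨L, h1, h2, sh_apply h3 i⟩

theorem lo_ne {x : List Bool} (h : shB f M x = false) (t : ℤ) {j : ℕ} (h1 : 1 ≤ j) (h2 : j ≤ M) :
    (⇑f)^[j] ((f ^ t) x) ≠ (f ^ t) x := by
  intro h3
  rw [← Bool.not_eq_true, shB_iff] at h
  apply h
  refine ⟨j, h1, h2, ?_⟩
  rw [Equiv.Perm.iterate_eq_pow, ← zpow_natCast, ← Equiv.Perm.mul_apply, ← zpow_add] at h3
  have := congrArg (f ^ (-t)) h3
  rw [← Equiv.Perm.mul_apply, ← Equiv.Perm.mul_apply, ← zpow_add, ← zpow_add, neg_add_cancel,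
    zpow_zero] at this
  have e : -t + ((j : ℤ) + t) = j := by ring
  rw [e, zpow_natCast, ← Equiv.Perm.iterate_eq_pow] at this
  exact this

theorem sh_zpow {x : List Bool} (h : shB f M x = false) (t : ℤ) : shB f M ((f ^ t) x) = false := by
  rw [← Bool.not_eq_true, shB_iff]
  rintro ⟨L, h1, h2, h3⟩
  exact lo_ne h t h1 h2 h3

variable (hlen : ∀ x, (f x).length = x.length)

include hlen

theorem zpow_length (t : ℤ) (x : List Bool) : ((f ^ t) x).length = x.length := by
  obtain ⟨n, rfl | rfl⟩ := t.eq_nat_or_neg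
  · rw [zpow_natCast, ← Equiv.Perm.iterate_eq_pow, iter_length hlen]
  · rw [← iterate_inv, iter_length (inv_length f hlen)]

theorem exists_marks (x : List Bool) : (∃ d < RF M x.length, mkF f M ((⇑f⁻¹)^[d] x) = true) ∧
    ∃ d < RF M x.length, mkF f M ((⇑f)^[d] x) = true := by
  cases h : shB f M x with
  | true =>
    obtain ⟨L, h1, h2, h3⟩ := shB_iff.1 h
    have h4 : ∀ i, (∀ j ≤ M, valB ((⇑f)^[i] x) ≤ valB ((⇑f)^[j] ((⇑f)^[i] x))) →
        mkF f M ((⇑f)^[i] x) = true := by
      intro i hi
      unfold mkF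
      rw [sh_iter h, cond_true, leB_iff]
      exact hi
    obtain ⟨⟨d, hd, hd'⟩, e, he, he'⟩ := short_exists h1 h3 h4
    exact ⟨⟨d, by unfold RF; omega, hd'⟩, e, by unfold RF; omega, he'⟩
  | false =>
    -- the sequence of colours
    have hmk : ∀ t : ℤ, mkF f M ((f ^ t) x) = loB f M ((f ^ t) x) := by
      intro t
      unfold mkF
      rw [sh_zpow h, cond_false]
    have key := seq_exists (a := fun t => col ⇑f M ((f ^ t) x)) (b := fun t => mkF f M ((f ^ t) x))
      (M := M) (Q := bnd M x.length) (fun t => by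
        have := col_lt ⇑f M ((f ^ t) x)
        rwa [zpow_length hlen] at this) (fun t j h1 h2 => by
          have e : (f ^ (t + j)) x = (⇑f)^[j] ((f ^ t) x) := by
            rw [Equiv.Perm.iterate_eq_pow, ← zpow_natCast, ← Equiv.Perm.mul_apply, ← zpow_add,
              add_comm]
          change col ⇑f M ((f ^ (t + j)) x) ≠ col ⇑f M ((f ^ t) x)
          rw [e]
          exact col_ne hlen h1 h2 (lo_ne h t h1 h2)) (fun t ht => by
          rw [hmk, loB_iff]
          intro j h1 h2
          have := ht j h1 h2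
          have e1 : (f ^ (t + j)) x = (⇑f)^[j] ((f ^ t) x) := by
            rw [Equiv.Perm.iterate_eq_pow, ← zpow_natCast, ← Equiv.Perm.mul_apply, ← zpow_add,
              add_comm]
          have e2 : (f ^ (t - j)) x = (⇑f⁻¹)^[j] ((f ^ t) x) := by
            rw [iterate_inv, ← Equiv.Perm.mul_apply, ← zpow_add, neg_add_eq_sub]
          rw [e1, e2] at this
          exact this) (bnd M x.length)
    have hR : ∀ s : ℤ, |s| ≤ M * (bnd M x.length : ℕ) → ∃ i : ℕ, i ≤ 2 * M * bnd M x.length ∧
        ((M * bnd M x.length : ℕ) : ℤ) + s = i := by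
      intro s hs
      rw [abs_le] at hs
      refine ⟨(((M * bnd M x.length : ℕ) : ℤ) + s).toNat, ?_, ?_⟩
      · have : (((2 * M * bnd M x.length : ℕ)) : ℤ) = 2 * (M * bnd M x.length) := by
          push_cast; ring
        have h5 : (((M * bnd M x.length : ℕ)) : ℤ) = M * bnd M x.length := by push_cast; ring
        rw [Int.toNat_le, this, h5]
        linarith [hs.2]
      · rw [Int.toNat_of_nonneg]
        push_cast
        linarith [hs.1]
    constructor
    · obtain ⟨s, hs, hs'⟩ := key (-((M * bnd M x.length : ℕ) : ℤ)) (Nat.sub_le _ _)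
      have hs2 : |-(s - -((M * bnd M x.length : ℕ) : ℤ))| ≤ M * (bnd M x.length : ℕ) := by
        rw [abs_neg]; exact hs
      obtain ⟨i, hi, he⟩ := hR _ hs2
      refine ⟨i, by unfold RF; omega, ?_⟩
      rw [iterate_inv, ← he]
      have : -(((M * bnd M x.length : ℕ) : ℤ) + -(s - -((M * bnd M x.length : ℕ) : ℤ))) = s := by
        ring
      rw [this]
      exact hs'
    · obtain ⟨s, hs, hs'⟩ := key ((M * bnd M x.length : ℕ) : ℤ) (Nat.sub_le _ _)
      obtain ⟨i, hi, he⟩ := hR _ hs
      refine ⟨i, by unfold RF; omega, ?_⟩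
      rw [Equiv.Perm.iterate_eq_pow, ← zpow_natCast, ← he]
      have : ((M * bnd M x.length : ℕ) : ℤ) + (s - ((M * bnd M x.length : ℕ) : ℤ)) = s := by ring
      rw [this]
      exact hs'

theorem lo_gap {x : List Bool} (h : shB f M x = false) : M < gap f (mkF f M) (RF M) x := by
  obtain ⟨y, h1, h2, h3⟩ := gap_ends (fun x => (exists_marks hlen x).1)
    (fun x => (exists_marks hlen x).2) x (f := f) (mk := mkF f M) (R := RF M)
  have hmk : ∀ t : ℤ, mkF f M ((f ^ t) x) = loB f M ((f ^ t) x) := by
    intro t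
    unfold mkF
    rw [sh_zpow h, cond_false]
  have hy : y = (f ^ (-((bk f (mkF f M) (RF M) x : ℕ) : ℤ))) x := by
    generalize bk f (mkF f M) (RF M) x = n at h2
    rw [← h2, Equiv.Perm.iterate_eq_pow, ← zpow_natCast, ← Equiv.Perm.mul_apply,
      ← zpow_add, neg_add_cancel]
    rfl
  refine seq_gap (a := fun t => col ⇑f M ((f ^ t) x)) (b := fun t => mkF f M ((f ^ t) x))
    (t := -((bk f (mkF f M) (RF M) x : ℕ) : ℤ)) ?_ (by unfold gap; omega) ?_ ?_
  · intro t ht j hj1 hj2
    change mkF f M ((f ^ t) x) = true at ht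
    rw [hmk, loB_iff] at ht
    have := ht j hj1 hj2
    have e1 : (f ^ (t + j)) x = (⇑f)^[j] ((f ^ t) x) := by
      rw [Equiv.Perm.iterate_eq_pow, ← zpow_natCast, ← Equiv.Perm.mul_apply, ← zpow_add,
        add_comm]
    have e2 : (f ^ (t - j)) x = (⇑f⁻¹)^[j] ((f ^ t) x) := by
      rw [iterate_inv, ← Equiv.Perm.mul_apply, ← zpow_add, neg_add_eq_sub]
    change col ⇑f M ((f ^ (t + j)) x) < _ ∧ col ⇑f M ((f ^ (t - j)) x) < _
    rw [e1, e2]
    exact this
  · rw [← hy]
    exact h1
  · rw [add_comm, zpow_add, Equiv.Perm.mul_apply, ← hy, zpow_natCast,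
      ← Equiv.Perm.iterate_eq_pow]
    exact h3

end marks

/-- **Colouring in polynomial time.** -/
theorem poly_flex {E : Fin k → Fin k → Prop} {v : Fin k} {N : ℕ} (hv : ∀ n ≥ N, Wlk E n v v)
    {f : Equiv.Perm (List Bool)} (hlen : ∀ x, (f x).length = x.length)
    (hf : Pool.Agent.NPC.Poly ⇑f) (hf' : Pool.Agent.NPC.Poly ⇑f⁻¹)
    (hcl : ∀ x L, f x ≠ x → (⇑f)^[L] x = x → ∃ u, Wlk E L u u) :
    ∃ c : List Bool → Fin k, Pool.Agent.NPC.Poly (fun x => ((c x : Fin k) : ℕ)) ∧
      ∀ x, f x ≠ x → E (c x) (c (f x)) := by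
  obtain ⟨wv, _, hwv, _, _, hwv2⟩ := exists_template (Nat.succ_pos N) (hv (N + 1) (by omega))
  obtain ⟨wk, hwk, hwk2⟩ := exists_wk E v
  have hb := fun x => (exists_marks hlen x (M := N + 1)).1
  have hfd := fun x => (exists_marks hlen x (M := N + 1)).2
  let W : ℕ → ℕ → Fin k := fun g p => bif decide (g ≤ N + 1) then wk g p else wv g p
  refine ⟨fun x => W (gap f (mkF f (N + 1)) (RF (N + 1)) x) (bk f (mkF f (N + 1)) (RF (N + 1)) x),
    ?_, ?_⟩
  · have h1 : Pool.Agent.NPC.Poly (bk f (mkF f (N + 1)) (RF (N + 1))) :=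
      poly_srch_iter hf' (inv_length f hlen) (poly_mkF hf hf') upoly_RF
    have h2 : Pool.Agent.NPC.Poly (fd f (mkF f (N + 1)) (RF (N + 1))) :=
      poly_srch_iter hf hlen (poly_mkF hf hf') upoly_RF
    have h3 : Pool.Agent.NPC.Poly (gap f (mkF f (N + 1)) (RF (N + 1))) :=
      Poly.succ (Poly.add h1 (h2.comp hf))
    have h4 := hwk.comp (Poly.pair h3 h1)
    have h5 := hwv.comp (Poly.pair h3 h1)
    refine (Poly.cond (Poly.decide_le h3 (pconst (N + 1))) h4 h5).congr fun x => ?_
    change _ = ((bif decide (gap f (mkF f (N + 1)) (RF (N + 1)) x ≤ N + 1) then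
      wk (gap f (mkF f (N + 1)) (RF (N + 1)) x) (bk f (mkF f (N + 1)) (RF (N + 1)) x) else
      wv (gap f (mkF f (N + 1)) (RF (N + 1)) x) (bk f (mkF f (N + 1)) (RF (N + 1)) x) : Fin k) : ℕ)
    cases decide (gap f (mkF f (N + 1)) (RF (N + 1)) x ≤ N + 1) <;> rfl
  · intro x hx
    have hW1 : ∀ g, N + 1 < g → W g = wv g := by
      intro g hg
      funext p
      change (bif decide (g ≤ N + 1) then wk g p else wv g p) = _
      rw [decide_eq_false (by omega), cond_false]
    have hW2 : ∀ g, g ≤ N + 1 → W g = wk g := by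
      intro g hg
      funext p
      change (bif decide (g ≤ N + 1) then wk g p else wv g p) = _
      rw [decide_eq_true hg, cond_true]
    cases h : shB f (N + 1) x with
    | true =>
      obtain ⟨L, h1, h2, h3⟩ := shB_iff.1 h
      obtain ⟨g1, g2⟩ := short_gap hlen hb hfd h1 h2 h3 (fun i hi => by
        unfold mkF at hi
        rw [sh_iter h, cond_true, leB_iff] at hi
        exact hi)
      have hpos : 0 < gap f (mkF f (N + 1)) (RF (N + 1)) x := by unfold gap; omega
      have hcw : IsCW E (W (gap f (mkF f (N + 1)) (RF (N + 1)) x))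
          (gap f (mkF f (N + 1)) (RF (N + 1)) x) := by
        by_cases hg : gap f (mkF f (N + 1)) (RF (N + 1)) x ≤ N + 1
        · rw [hW2 _ hg]
          exact hwk2 _ hpos (hcl x _ hx g1)
        · rw [hW1 _ (by omega)]
          obtain ⟨k1, k2, k3⟩ := hwv2 _
            (hv (gap f (mkF f (N + 1)) (RF (N + 1)) x) (by omega))
          exact ⟨k1.trans k2.symm, k3⟩
      refine colour_ok hb hfd hcw.2 fun _ => ?_
      rw [g2]
      exact hcw.1
    | false =>
      have g1 := lo_gap hlen h
      have h' : shB f (N + 1) (f x) = false := sh_zpow h 1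
      have g2 := lo_gap hlen h'
      obtain ⟨k1, k2, k3⟩ := hwv2 _ (hv (gap f (mkF f (N + 1)) (RF (N + 1)) x) (by omega))
      obtain ⟨k1', _, _⟩ := hwv2 _ (hv (gap f (mkF f (N + 1)) (RF (N + 1)) (f x)) (by omega))
      refine colour_ok hb hfd ?_ fun _ => ?_
      · rw [hW1 _ g1]
        exact k3
      · rw [hW1 _ g1, hW1 _ g2, k1', k2]

end Pool.Agent.W890.LC
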