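import Pool.Agent.W890.LC.Twist2

/-!
# The dichotomy
-/

namespace Pool.Agent.W890.LC

open Pool.Agent.NPC Pool.Agent.NPC.PIso
open Pool.Agent.W903.GP (pconst iterate_inv inv_length iter_length cT cTi cT_length cTi_length
  cT_cTi cTi_cT poly_cT poly_cTi sc cc poly_cc poly_sc mem_iff_final poly_kap kap_le)

variable {k : ℕ}

/-! ### The parameters -/

/-- the half length of the cycles -/
def Hn (T n : ℕ) : ℕ := T * (2 * Pool.Agent.W903.GP.kap n / T + 1)

/-- the number of ordinary labels -/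
def Sn (T n : ℕ) : ℕ := 2 * Hn T n + T - 1

theorem one_le_kap (n : ℕ) : 1 ≤ Pool.Agent.W903.GP.kap n := by
  unfold Pool.Agent.W903.GP.kap
  exact Nat.one_le_two_pow

theorem Hn_gt {T : ℕ} (hT : 2 ≤ T) (n : ℕ) : 2 * Pool.Agent.W903.GP.kap n < Hn T n :=
  Nat.lt_mul_div_succ _ (by omega)

theorem Sn_gt {T : ℕ} (hT : 2 ≤ T) (n : ℕ) :
    Hn T n + 2 * Pool.Agent.W903.GP.kap n < Sn T n := by
  have := Hn_gt hT n
  unfold Sn
  omega

theorem Sn_lt {T : ℕ} (hT : 2 ≤ T) (n : ℕ) : Sn T n + 1 < 2 ^ (n + (T + 5)) := by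
  have h1 : Hn T n ≤ 2 * Pool.Agent.W903.GP.kap n + T := by
    have := Nat.mul_div_le (2 * Pool.Agent.W903.GP.kap n) T
    unfold Hn
    rw [Nat.mul_add, Nat.mul_one]
    omega
  have h2 := kap_le n
  have h3 : T < 2 ^ T := Nat.lt_two_pow_self
  have h4 : 0 < 2 ^ n := by positivity
  have h5 : 2 ^ (n + (T + 5)) = 32 * (2 ^ n * 2 ^ T) := by
    rw [pow_add, pow_add]; ring
  have h6 : 2 ^ n * (T + 1) ≤ 2 ^ n * 2 ^ T := Nat.mul_le_mul_left _ h3
  have h7 : T + 1 ≤ 2 ^ n * (T + 1) := Nat.le_mul_of_pos_left _ h4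
  have h8 : 2 ^ n ≤ 2 ^ n * (T + 1) := Nat.le_mul_of_pos_right _ (by omega)
  unfold Sn
  omega

theorem dvd_Hn (T n : ℕ) : T ∣ Hn T n := Dvd.intro _ rfl

theorem dvd_Sn {T : ℕ} (hT : 2 ≤ T) (n : ℕ) : T ∣ Sn T n + 1 := by
  have : Sn T n + 1 = 2 * Hn T n + T := by unfold Sn; omega
  rw [this]
  exact dvd_add ((dvd_Hn T n).mul_left 2) dvd_rfl

theorem poly_Hn {T : ℕ} {α : Type} [TEnc α] {d : α → List Bool} (hd : Pool.Agent.NPC.Poly d) :
    Pool.Agent.NPC.Poly (fun a => Hn T (d a).length) := by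
  unfold Hn
  exact Poly.mul (pconst T) (Poly.succ (Poly.div (Poly.mul (pconst 2) (poly_kap.comp hd))
    (pconst T)))

theorem poly_Sn {T : ℕ} {α : Type} [TEnc α] {d : α → List Bool} (hd : Pool.Agent.NPC.Poly d) :
    Pool.Agent.NPC.Poly (fun a => Sn T (d a).length) := by
  unfold Sn
  exact Poly.sub (Poly.add (Poly.mul (pconst 2) (poly_Hn hd)) (pconst T)) (pconst 1)

/-! ### The dynamics is computed in polynomial time -/

section polyF

variable {φ φi : List Bool → List Bool} {ac : List Bool → Bool} {T : ℕ}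
  (hφ : Pool.Agent.NPC.Poly φ) (hφi : Pool.Agent.NPC.Poly φi) (hac : Pool.Agent.NPC.Poly ac)
  {α : Type} [TEnc α] {p : α → List Bool × ℕ} (hp : Pool.Agent.NPC.Poly p)

include hφ hφi hp in
theorem poly_mv : Pool.Agent.NPC.Poly
    (fun a => mv φ φi Pool.Agent.W903.GP.kap (Hn T) (p a)) := by
  have e1 : Pool.Agent.NPC.Poly (fun a => (p a).1) := Poly.fst hp
  have e2 : Pool.Agent.NPC.Poly (fun a => (p a).2) := Poly.snd hp
  have eK : Pool.Agent.NPC.Poly (fun a => Pool.Agent.W903.GP.kap (p a).1.length) :=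
    poly_kap.comp e1
  have eH : Pool.Agent.NPC.Poly (fun a => Hn T (p a).1.length) := poly_Hn e1
  have f1 := hφ.comp e1
  have f2 := hφi.comp e1
  unfold mv stp
  refine Poly.pair ?_ e2
  exact Poly.ite (Poly.decide_lt e2 eK) f1 (Poly.ite (Poly.decide_lt e2 (Poly.mul (pconst 2) eK)) f2
    (Poly.ite (Poly.decide_lt e2 eH) e1 (Poly.ite (Poly.decide_lt e2 (Poly.add eH eK)) f1
      (Poly.ite (Poly.decide_lt e2 (Poly.add eH (Poly.mul (pconst 2) eK))) f2 e1))))

theorem poly_sw {a b s : α → ℕ} (ha : Pool.Agent.NPC.Poly a) (hb : Pool.Agent.NPC.Poly b)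
    (hs : Pool.Agent.NPC.Poly s) : Pool.Agent.NPC.Poly (fun x => sw (a x) (b x) (s x)) := by
  unfold sw
  exact Poly.ite (Poly.decide_eq hs ha) hb (Poly.ite (Poly.decide_eq hs hb) ha hs)

include hac hp in
theorem poly_sg : Pool.Agent.NPC.Poly
    (fun a => sg ac Pool.Agent.W903.GP.kap (Hn T) (Sn T) (p a)) := by
  have e1 : Pool.Agent.NPC.Poly (fun a => (p a).1) := Poly.fst hp
  have e2 : Pool.Agent.NPC.Poly (fun a => (p a).2) := Poly.snd hp
  have eK : Pool.Agent.NPC.Poly (fun a => Pool.Agent.W903.GP.kap (p a).1.length) :=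
    poly_kap.comp e1
  have eH : Pool.Agent.NPC.Poly (fun a => Hn T (p a).1.length) := poly_Hn e1
  have eS : Pool.Agent.NPC.Poly (fun a => Sn T (p a).1.length) := poly_Sn e1
  have f1 := hac.comp e1
  unfold sg
  exact Poly.pair e1 (Poly.ite (Poly.decide_eq f1 (pconst true)) (poly_sw eK eS e2)
    (poly_sw (Poly.add eH eK) (Poly.succ eS) e2))

include hp in
theorem poly_ro : Pool.Agent.NPC.Poly (fun a => ro (Sn T) (p a)) := by
  have e1 : Pool.Agent.NPC.Poly (fun a => (p a).1) := Poly.fst hp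
  have e2 : Pool.Agent.NPC.Poly (fun a => (p a).2) := Poly.snd hp
  have eS : Pool.Agent.NPC.Poly (fun a => Sn T (p a).1.length) := poly_Sn e1
  unfold ro
  exact Poly.pair e1 (Poly.ite (Poly.decide_lt (Poly.succ e2) eS) (Poly.succ e2)
    (Poly.ite (Poly.decide_eq (Poly.succ e2) eS) (pconst 0) e2))

include hp in
theorem poly_roi : Pool.Agent.NPC.Poly (fun a => roi (Sn T) (p a)) := by
  have e1 : Pool.Agent.NPC.Poly (fun a => (p a).1) := Poly.fst hp
  have e2 : Pool.Agent.NPC.Poly (fun a => (p a).2) := Poly.snd hp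
  have eS : Pool.Agent.NPC.Poly (fun a => Sn T (p a).1.length) := poly_Sn e1
  unfold roi
  exact Poly.pair e1 (Poly.ite (Poly.decide_eq e2 (pconst 0)) (Poly.sub eS (pconst 1))
    (Poly.ite (Poly.decide_lt e2 eS) (Poly.sub e2 (pconst 1)) e2))

include hφ hφi hac in
theorem poly_F : Pool.Agent.NPC.Poly
    (F φ φi ac Pool.Agent.W903.GP.kap (Hn T) (Sn T)) := by
  unfold F
  exact poly_ro (poly_mv hφ hφi (poly_sg hac Pool.Agent.NPC.Poly.id))

include hφ hφi hac in
theorem poly_Fi : Pool.Agent.NPC.Poly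
    (Fi φ φi ac Pool.Agent.W903.GP.kap (Hn T) (Sn T)) := by
  unfold Fi
  exact poly_sg hac (poly_mv hφi hφ (poly_roi Pool.Agent.NPC.Poly.id))

end polyF

/-! ### Tables with two entries -/

theorem poly_table2 (t : ℕ → ℕ → Bool) (k : ℕ) {α : Type} [TEnc α] {r s : α → ℕ}
    (hr : Pool.Agent.NPC.Poly r) (hs : Pool.Agent.NPC.Poly s) (hrk : ∀ a, r a < k)
    (hsk : ∀ a, s a < k) : Pool.Agent.NPC.Poly (fun a => t (r a) (s a)) := by
  have h1 : ∀ i, Pool.Agent.NPC.Poly (fun a => t i (s a)) := fun i =>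
    (poly_cases hs (fun j _ => t i j) (fun j => pconst _) (pconst false) k).congr fun a => by
      rw [decide_eq_true (hsk a), cond_true]
  exact (poly_cases hr (fun i a => t i (s a)) h1 (pconst false) k).congr fun a => by
    rw [decide_eq_true (hrk a), cond_true]

theorem lft_iter {B : ℕ} {g : List Bool × ℕ → List Bool × ℕ} (hg : Ok B g) {d : List Bool}
    {c : ℕ} (hc : c < 2 ^ (d.length + B)) (j : ℕ) :
    (lft B g)^[j] (sB B d c) = sB B (g^[j] (d, c)).1 (g^[j] (d, c)).2 ∧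
      (g^[j] (d, c)).2 < 2 ^ ((g^[j] (d, c)).1.length + B) := by
  induction j with
  | zero => exact ⟨rfl, hc⟩
  | succ j ih =>
    obtain ⟨h1, h2⟩ := ih
    obtain ⟨h3, h4⟩ := hg _ _ h2
    rw [Function.iterate_succ_apply', Function.iterate_succ_apply', h1, lft_sB g h2]
    exact ⟨rfl, by rw [h3]; exact h4⟩

/-! ### Hardness -/

/-- the property of all permutations in question -/
def AllCol (E : Fin k → Fin k → Prop) : Prop :=
  ∀ f : Equiv.Perm (List Bool), (∀ x, (f x).length = x.length) → Pool.Agent.NPC.Poly ⇑f →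
    Pool.Agent.NPC.Poly ⇑f⁻¹ →
    (∃ c : List Bool → Fin k, ∀ x, f x ≠ x → E (c x) (c (f x))) →
    ∃ c : List Bool → Fin k, Pool.Agent.NPC.Poly (fun x => ((c x : Fin k) : ℕ)) ∧
      ∀ x, f x ≠ x → E (c x) (c (f x))

theorem inP_of_allCol {E : Fin k → Fin k → Prop} {T : ℕ} (hT : 2 ≤ T) {v₀ : Fin k}
    (h₀ : Wlk E T v₀ v₀) (hno : ∀ v n, n % T = 1 → ¬ Wlk E n v v) (hall : AllCol E)
    {L : Set (List Bool)} (hL : InPSPACE L) : InP L := by
  classical
  obtain ⟨D⟩ := exists_sys hL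
  have D := D.toPerm
  obtain ⟨w, w0, wT, hw⟩ := h₀
  set ac : List Bool → Bool := fun d => D.acc (cc d) with hac
  have hpac : Pool.Agent.NPC.Poly ac := D.poly_acc.comp (poly_cc Pool.Agent.NPC.Poly.id)
  have hB := Sn_lt hT
  have hS := Sn_gt hT
  have hH := Hn_gt hT
  have hK := one_le_kap
  have p1 := cT_cTi D
  have p2 := cTi_cT D
  have hl := cT_length D
  have hl' := cTi_length D
  have okF := ok_F (ac := ac) hl hl' hS hB
  have okFi := ok_Fi (ac := ac) hl hl' hS hB
  let G := F (cT D) (cTi D) ac Pool.Agent.W903.GP.kap (Hn T) (Sn T)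
  let Gi := Fi (cT D) (cTi D) ac Pool.Agent.W903.GP.kap (Hn T) (Sn T)
  let f : Equiv.Perm (List Bool) := ⟨lft (T + 5) G, lft (T + 5) Gi,
    fun y => lft_lft okF (fun d c _ => Fi_F p1 p2 hl hl' hK hS (d, c)) y,
    fun y => lft_lft okFi (fun d c _ => F_Fi p1 p2 hl hl' hK hS (d, c)) y⟩
  have hflen : ∀ x, (f x).length = x.length := fun x => lft_length okF x
  have hfp : Pool.Agent.NPC.Poly ⇑f := poly_lft (poly_F (poly_cT D) (poly_cTi D) hpac)
  have hfip : Pool.Agent.NPC.Poly ⇑f⁻¹ := poly_lft (poly_Fi (poly_cT D) (poly_cTi D) hpac)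
  have hcyc : ∀ q, E (w (q % T)) (w ((q + 1) % T)) := by
    intro q
    have := (wlkOf_spec (E := E) (v := v₀) (m := 0) (n := T * (q + 1)) (W := fun _ => v₀) (C := w)
      (by omega) w0 wT hw rfl rfl (fun i hi => absurd hi (Nat.not_lt_zero i)) (Nat.zero_le _)
      (by simp)).2.2 q (by
        calc q < 1 * (q + 1) := by omega
          _ ≤ T * (q + 1) := Nat.mul_le_mul_right _ (by omega))
    simpa [wlkOf] using this
  -- a colouring
  have hcol : ∃ c : List Bool → Fin k, ∀ x, f x ≠ x → E (c x) (c (f x)) := by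
    refine ⟨fun y => w (tp (cT D) ac Pool.Agent.W903.GP.kap (Hn T) (Sn T)
      (cB (T + 5) y, kB (T + 5) y) % T), fun y hy => ?_⟩
    have hv : vB (T + 5) y = true := by
      by_contra hv
      apply hy
      change lft (T + 5) G y = y
      unfold lft
      rw [Bool.not_eq_true] at hv
      rw [hv, cond_false]
    have hk := kB_lt hv
    have hye := sB_cB_kB hv
    generalize cB (T + 5) y = d at hk hye
    generalize kB (T + 5) y = s at hk hye
    subst hye
    have e1 : f (sB (T + 5) d s) = sB (T + 5) (G (d, s)).1 (G (d, s)).2 := lft_sB G hk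
    obtain ⟨g1, g2⟩ := okF d s hk
    have g3 : (G (d, s)).2 < 2 ^ ((G (d, s)).1.length + (T + 5)) := by
      rw [g1]; exact g2
    have hm : G (d, s) ≠ (d, s) := by
      intro h
      apply hy
      rw [e1, h]
    beta_reduce
    rw [e1, cB_sB g3, kB_sB g3, cB_sB hk, kB_sB hk]
    have hstep := tp_step p1 p2 hl hl' hK hH hS d s hm
    have hmod : tp (cT D) ac Pool.Agent.W903.GP.kap (Hn T) (Sn T) (G (d, s)) % T =
        (tp (cT D) ac Pool.Agent.W903.GP.kap (Hn T) (Sn T) (d, s) + 1) % T := by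
      rcases hstep with h | ⟨h, h'⟩
      · rw [h]
      · rw [h, h', Nat.zero_mod]
        exact (Nat.mod_eq_zero_of_dvd (dvd_Sn hT _)).symm
    change E (w (tp _ _ _ _ _ (d, s) % T)) (w (tp _ _ _ _ _ (G (d, s)) % T))
    rw [hmod]
    exact hcyc _
  obtain ⟨c, hc, hcE⟩ := hall f hflen hfp hfip hcol
  -- the test
  let X : List Bool → List Bool := fun x => sB (T + 5) (sc (D.start x) 0) 0
  let Y : List Bool → List Bool := fun x =>
    sB (T + 5) (sc (D.start x) 0) (Hn T (sc (D.start x) 0).length)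
  let t : ℕ → ℕ → Bool := fun i j => decide (∃ (hi : i < k) (hj : j < k) (m : ℕ),
    m % T = 0 ∧ Wlk E m ⟨i, hi⟩ ⟨j, hj⟩)
  have hpd : Pool.Agent.NPC.Poly (fun x : List Bool => sc (D.start x) 0) :=
    poly_sc D.poly_start (pconst 0)
  have hX : Pool.Agent.NPC.Poly X := poly_sB hpd (pconst 0)
  have hY : Pool.Agent.NPC.Poly Y := poly_sB hpd (poly_Hn hpd)
  have hV : Pool.Agent.NPC.Poly (fun x => !(t ((c (Y x) : Fin k) : ℕ) ((c (X x) : Fin k) : ℕ))) :=
    Poly.not (poly_table2 t k (hc.comp hY) (hc.comp hX) (fun x => (c (Y x)).2)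
      (fun x => (c (X x)).2))
  refine ⟨fun x => [!(t ((c (Y x) : Fin k) : ℕ) ((c (X x) : Fin k) : ℕ))], polyTime_of_poly hV,
    fun x => ?_⟩
  set d := sc (D.start x) 0 with hd
  have hmem := mem_iff_final D x
  rw [← hd] at hmem
  have b0 : 0 < 2 ^ (d.length + (T + 5)) := by positivity
  have bH : Hn T d.length < 2 ^ (d.length + (T + 5)) := by
    have := hB d.length
    have := hS d.length
    omega
  have half1' := half1 (ac := ac) p2 hl hl' hK hH hS d
  have half2' := half2 (ac := ac) p2 hl hl' hK hH hS d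
  have i1 := fun j => (lft_iter (g := G) okF b0 j).1
  have i2 := fun j => (lft_iter (g := G) okF bH j).1
  have hmove : f (X x) ≠ X x := by
    have e0 : f (X x) = sB (T + 5) (G (d, 0)).1 (G (d, 0)).2 := lft_sB G b0
    have e1 : G (d, 0) = (cT D d, 0 + 1) := by
      have a1 := hS d.length
      have a2 := hK d.length
      have a3 := hH d.length
      change F _ _ _ _ _ _ (d, 0) = _
      rw [F_run hl hl' (by omega) (Or.inl (by omega)) (Or.inl (by omega)), stp_a (by omega)]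
    rw [e0, e1]
    intro h
    have h2 := congrArg (kB (T + 5)) h
    rw [kB_sB (d := d) b0, kB_sB (by rw [hl]; exact Nat.one_lt_two_pow (by omega))] at h2
    exact absurd h2 (by norm_num)
  have hmemac : x ∈ L ↔ ac ((cT D)^[Pool.Agent.W903.GP.kap d.length] d) = true := hmem
  have tY : ∀ u v : Fin k, t (u : ℕ) (v : ℕ) = true ↔ ∃ m, m % T = 0 ∧ Wlk E m u v := by
    intro u v
    change decide (∃ (hi : (u : ℕ) < k) (hj : (v : ℕ) < k) (m : ℕ),
      m % T = 0 ∧ Wlk E m ⟨u, hi⟩ ⟨v, hj⟩) = true ↔ _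
    rw [decide_eq_true_iff]
    constructor
    · rintro ⟨_, _, m, h1, h2⟩
      exact ⟨m, h1, h2⟩
    · rintro ⟨m, h1, h2⟩
      exact ⟨u.2, v.2, m, h1, h2⟩
  cases ha : ac ((cT D)^[Pool.Agent.W903.GP.kap d.length] d) with
  | true =>
    rw [ha] at half1' half2'
    have e1 : (⇑f)^[Hn T d.length + 1] (X x) = Y x := by
      have := i1 (Hn T d.length + 1)
      change (⇑f)^[Hn T d.length + 1] (X x) = _ at this
      rw [this]
      change sB (T + 5) (G^[Hn T d.length + 1] (d, 0)).1 (G^[Hn T d.length + 1] (d, 0)).2 = _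
      rw [show G^[Hn T d.length + 1] (d, 0) = (d, Hn T d.length) from half1']
    have hwalk := wlk_of_colouring hcE hmove (m := 0) (y := X x) rfl
      (n := Hn T d.length + 1) (Hn T d.length + 1) rfl
    rw [e1] at hwalk
    have hf : t ((c (Y x) : Fin k) : ℕ) ((c (X x) : Fin k) : ℕ) = false := by
      rw [← Bool.not_eq_true, tY]
      rintro ⟨m, hm, hw'⟩
      refine hno (c (X x)) (Hn T d.length + 1 + m) ?_ (hwalk.add hw')
      have h1 : Hn T d.length % T = 0 := Nat.mod_eq_zero_of_dvd (dvd_Hn T _)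
      rw [Nat.add_mod, Nat.add_mod (Hn T d.length), h1, hm, Nat.zero_add, Nat.add_zero,
        Nat.mod_mod, Nat.mod_mod, Nat.mod_eq_of_lt (by omega)]
    change x ∈ L ↔ [!(t ((c (Y x) : Fin k) : ℕ) ((c (X x) : Fin k) : ℕ))] = [true]
    rw [hf]
    simp [hmemac, ha]
  | false =>
    rw [ha] at half1' half2'
    have e1 : (⇑f)^[Hn T d.length + 0] (X x) = Y x := by
      have := i1 (Hn T d.length + 0)
      change (⇑f)^[Hn T d.length + 0] (X x) = _ at this
      rw [this]
      change sB (T + 5) (G^[Hn T d.length + 0] (d, 0)).1 (G^[Hn T d.length + 0] (d, 0)).2 = _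
      rw [show G^[Hn T d.length + 0] (d, 0) = (d, Hn T d.length) from half1']
    have e2 : (⇑f)^[Sn T d.length - Hn T d.length + 1] (Y x) = X x := by
      have := i2 (Sn T d.length - Hn T d.length + 1)
      change (⇑f)^[Sn T d.length - Hn T d.length + 1] (Y x) = _ at this
      rw [this]
      change sB (T + 5) (G^[Sn T d.length - Hn T d.length + 1] (d, Hn T d.length)).1
        (G^[Sn T d.length - Hn T d.length + 1] (d, Hn T d.length)).2 = _
      rw [show G^[Sn T d.length - Hn T d.length + 1] (d, Hn T d.length) = (d, 0) from half2']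
    have hwalk := wlk_of_colouring hcE hmove (m := Hn T d.length + 0) (y := Y x) e1
      (n := Sn T d.length - Hn T d.length + 1) 0 e2
    have hf : t ((c (Y x) : Fin k) : ℕ) ((c (X x) : Fin k) : ℕ) = true := by
      rw [tY]
      refine ⟨_, ?_, hwalk⟩
      have h1 : Sn T d.length - Hn T d.length + 1 = Sn T d.length + 1 - Hn T d.length := by
        have := hS d.length
        omega
      rw [h1]
      exact Nat.mod_eq_zero_of_dvd (Nat.dvd_sub (dvd_Sn hT _) (dvd_Hn T _))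
    change x ∈ L ↔ [!(t ((c (Y x) : Fin k) : ℕ) ((c (X x) : Fin k) : ℕ))] = [true]
    rw [hf]
    simp [hmemac, ha]

/-! ### The dichotomy -/

/-- `E` has closed walks of all large lengths at one vertex, or has no closed walk -/
def Easy (E : Fin k → Fin k → Prop) : Prop :=
  (∃ v N, ∀ n ≥ N, Wlk E n v v) ∨ ∀ v n, Wlk E n v v → n = 0

theorem allCol_of_easy {E : Fin k → Fin k → Prop} (h : Easy E) : AllCol E := by
  rintro f hlen hf hf' ⟨c₀, hc₀⟩
  rcases h with ⟨v, N, hv⟩ | h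
  · exact poly_flex hv hlen hf hf' fun x L hx hL =>
      ⟨_, wlk_of_colouring hc₀ hx (m := 0) rfl 0 hL⟩
  · have hid : ∀ x, f x = x := by
      intro x
      by_contra hx
      obtain ⟨n, h1, _, h3⟩ := Pool.Agent.W903.GP.exists_period f.injective hlen x
      have := h _ _ (wlk_of_colouring hc₀ hx (m := 0) rfl 0 h3)
      omega
    exact ⟨fun _ => c₀ [], pconst _, fun x hx => absurd (hid x) hx⟩

theorem allCol_iff {E : Fin k → Fin k → Prop} (h : ¬ Easy E) :
    AllCol E ↔ ∀ L : Set (List Bool), InPSPACE L ↔ InP L := by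
  constructor
  · intro hall L
    unfold Easy at h
    rw [not_or] at h
    obtain ⟨h1, h2⟩ := h
    push Not at h2
    obtain ⟨v₀, a, ha, ha0⟩ := h2
    obtain ⟨T, hT, hT1, hT2⟩ := exists_modulus h1 (Nat.pos_of_ne_zero ha0) ha
    exact ⟨inP_of_allCol hT hT1 hT2 hall, inPSPACE_of_inP⟩
  · rintro hP f hlen hf hf' ⟨c₀, hc₀⟩
    exact poly_space hlen (fun L hL => (hP L).1 hL) hf hf' hc₀

/-! ### Proper colourings -/

theorem wlk_two {q : ℕ} (hq : 2 ≤ q) :
    Wlk (fun i j : Fin q => i ≠ j) 2 ⟨0, by omega⟩ ⟨0, by omega⟩ := by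
  refine ⟨fun i => if i = 1 then ⟨1, by omega⟩ else ⟨0, by omega⟩, by simp, by simp, ?_⟩
  intro i hi
  interval_cases i <;> simp

theorem wlk_three {q : ℕ} (hq : 3 ≤ q) :
    Wlk (fun i j : Fin q => i ≠ j) 3 ⟨0, by omega⟩ ⟨0, by omega⟩ := by
  refine ⟨fun i => if i = 1 then ⟨1, by omega⟩ else if i = 2 then ⟨2, by omega⟩ else
    ⟨0, by omega⟩, by simp, by simp, ?_⟩
  intro i hi
  interval_cases i <;> simp

theorem wlk_ge_two {q : ℕ} (hq : 3 ≤ q) (n : ℕ) (hn : 2 ≤ n) :
    Wlk (fun i j : Fin q => i ≠ j) n ⟨0, by omega⟩ ⟨0, by omega⟩ := by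
  obtain ⟨m, rfl | rfl⟩ := Nat.even_or_odd' n
  · exact (wlk_two (by omega)).mul m
  · obtain ⟨l, rfl⟩ : ∃ l, m = l + 1 := ⟨m - 1, by omega⟩
    have h := (wlk_three hq).add ((wlk_two (q := q) (by omega)).mul l)
    rwa [show 3 + 2 * l = 2 * (l + 1) + 1 by ring] at h

/-- Every permutation in question has a polynomial-time proper colouring with three colours. -/
theorem poly_three {q : ℕ} (hq : 3 ≤ q) {f : Equiv.Perm (List Bool)}
    (hlen : ∀ x, (f x).length = x.length) (hf : Pool.Agent.NPC.Poly ⇑f)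
    (hf' : Pool.Agent.NPC.Poly ⇑f⁻¹) :
    ∃ c : List Bool → Fin q, Pool.Agent.NPC.Poly (fun x => ((c x : Fin q) : ℕ)) ∧
      ∀ x, f x ≠ x → c x ≠ c (f x) := by
  refine poly_flex (E := fun i j : Fin q => i ≠ j) (v := ⟨0, by omega⟩) (N := 2)
    (fun n hn => wlk_ge_two hq n hn) hlen hf hf' ?_
  intro x L hx hL
  rcases Nat.lt_or_ge L 2 with h | h
  · interval_cases L
    · exact ⟨⟨0, by omega⟩, Wlk.zero _ _⟩
    · exact absurd hL hx
  · exact ⟨_, wlk_ge_two hq L h⟩

theorem wlk_even {n : ℕ} {v : Fin 2} (h : Wlk (fun i j : Fin 2 => i ≠ j) n v v) : n % 2 = 0 := by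
  obtain ⟨w, h0, hn, hw⟩ := h
  have key : ∀ i ≤ n, ((w i : Fin 2) : ℕ) % 2 = ((w 0 : Fin 2) + i) % 2 := by
    intro i
    induction i with
    | zero => intro _; simp
    | succ i ih =>
      intro hi
      have h1 := ih (by omega)
      have h2 := hw i (by omega)
      have h3 : ((w i : Fin 2) : ℕ) ≠ ((w (i + 1) : Fin 2) : ℕ) := fun h => h2 (Fin.ext h)
      have h4 := (w i).2
      have h5 := (w (i + 1)).2
      omega
  have h1 := key n le_rfl
  rw [hn, h0] at h1
  omega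

theorem not_easy_two : ¬ Easy (fun i j : Fin 2 => i ≠ j) := by
  rintro (⟨v, N, hv⟩ | h)
  · have h1 := wlk_even (hv (2 * N + 1) (by omega))
    omega
  · have := h _ _ (wlk_two le_rfl)
    omega

/-! ### The statement with Turing machines -/

theorem poly_val_iff {c : List Bool → Fin k} :
    PolyTime (fun x => List.replicate ((c x : Fin k) : ℕ) true) ↔
      Pool.Agent.NPC.Poly (fun x => ((c x : Fin k) : ℕ)) := by
  rw [← poly_iff]
  constructor
  · intro h
    exact (Poly.length h).congr fun x => by simp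
  · intro h
    have h1 : UPoly (fun x => ((c x : Fin k) : ℕ)) :=
      UPoly.of_le h (UPoly.const k) fun x => (c x).2.le
    exact (Pool.Agent.NPC.Poly.map (F := fun _ (_ : Unit) => true) h1 (pconst true)).congr fun x => by simp

/-- the property of all permutations in question, with Turing machines -/
def AllColT (E : Fin k → Fin k → Prop) : Prop :=
  ∀ f : Equiv.Perm (List Bool),
    ((∀ x, (f x).length = x.length) ∧ PolyTime ⇑f ∧ PolyTime ⇑f⁻¹) →
    (∃ c : List Bool → Fin k, ∀ x, f x ≠ x → E (c x) (c (f x))) →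
    ∃ c : List Bool → Fin k, PolyTime (fun x => List.replicate ((c x : Fin k) : ℕ) true) ∧
      ∀ x, f x ≠ x → E (c x) (c (f x))

theorem allColT_iff (E : Fin k → Fin k → Prop) : AllColT E ↔ AllCol E := by
  constructor
  · intro h f hlen hf hf' hc
    obtain ⟨c, h1, h2⟩ := h f ⟨hlen, poly_iff.1 hf, poly_iff.1 hf'⟩ hc
    exact ⟨c, poly_val_iff.1 h1, h2⟩
  · rintro h f ⟨hlen, hf, hf'⟩ hc
    obtain ⟨c, h1, h2⟩ := h f hlen (poly_iff.2 hf) (poly_iff.2 hf') hc
    exact ⟨c, poly_val_iff.2 h1, h2⟩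

end Pool.Agent.W890.LC
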