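import Pool.Agent.W890.LC.Walk

/-!
# Colourings of a permutation from marked points
-/

namespace Pool.Agent.W890.LC

open Pool.Agent.NPC Pool.Agent.NPC.PIso
open Pool.Agent.W903.GP (pconst srch srch_spec srch_of iterate_inv inv_length iter_length)

variable {k : ℕ}

theorem srch_least {P : ℕ → Bool} {n : ℕ} (h : ∃ j < n, P j = true) :
    P (srch P n) = true ∧ ∀ i < srch P n, P i = false := by
  obtain ⟨j, hj, h⟩ := h
  exact ⟨(srch_of hj h).2, (srch_spec P n).2.1⟩

theorem least_unique {P : ℕ → Bool} {s t : ℕ} (hs : P s = true) (hs' : ∀ i < s, P i = false)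
    (ht : P t = true) (ht' : ∀ i < t, P i = false) : s = t := by
  rcases lt_trichotomy s t with h | h | h
  · rw [ht' s h] at hs; exact absurd hs (by simp)
  · exact h
  · rw [hs' t h] at ht; exact absurd ht (by simp)

section

variable (f : Equiv.Perm (List Bool)) (mk : List Bool → Bool) (R : ℕ → ℕ)

/-- the distance back to the last marked point -/
def bk (x : List Bool) : ℕ := srch (fun d => mk ((⇑f⁻¹)^[d] x)) (R x.length)

/-- the distance to the next marked point -/
def fd (x : List Bool) : ℕ := srch (fun d => mk ((⇑f)^[d] x)) (R x.length)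

/-- the length of the gap between marked points which contains `x` -/
def gap (x : List Bool) : ℕ := bk f mk R x + fd f mk R (f x) + 1

variable {f mk R}

theorem inv_iter_succ (x : List Bool) (d : ℕ) : (⇑f⁻¹)^[d + 1] (f x) = (⇑f⁻¹)^[d] x := by
  rw [Function.iterate_succ_apply]
  congr 1
  exact f.symm_apply_apply x

variable (hb : ∀ x, ∃ d < R x.length, mk ((⇑f⁻¹)^[d] x) = true)
  (hf : ∀ x, ∃ d < R x.length, mk ((⇑f)^[d] x) = true)

include hb in
theorem bk_spec (x : List Bool) : mk ((⇑f⁻¹)^[bk f mk R x] x) = true ∧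
    ∀ i < bk f mk R x, mk ((⇑f⁻¹)^[i] x) = false := srch_least (hb x)

include hf in
theorem fd_spec (x : List Bool) : mk ((⇑f)^[fd f mk R x] x) = true ∧
    ∀ i < fd f mk R x, mk ((⇑f)^[i] x) = false := srch_least (hf x)

include hb in
theorem bk_false {x : List Bool} (h : mk (f x) = false) : bk f mk R (f x) = bk f mk R x + 1 := by
  obtain ⟨h1, h2⟩ := bk_spec hb (f x)
  obtain ⟨h3, h4⟩ := bk_spec hb x
  refine least_unique (P := fun d => mk ((⇑f⁻¹)^[d] (f x))) h1 h2 ?_ ?_
  · rw [inv_iter_succ]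
    exact h3
  · intro i hi
    cases i with
    | zero => exact h
    | succ i =>
      rw [inv_iter_succ]
      exact h4 i (by omega)

include hb in
theorem bk_true {x : List Bool} (h : mk x = true) : bk f mk R x = 0 := by
  obtain ⟨h1, h2⟩ := bk_spec hb x
  exact least_unique (P := fun d => mk ((⇑f⁻¹)^[d] x)) h1 h2 h
    (fun i hi => absurd hi (Nat.not_lt_zero i))

include hf in
theorem fd_true {x : List Bool} (h : mk x = true) : fd f mk R x = 0 := by
  obtain ⟨h1, h2⟩ := fd_spec hf x
  exact least_unique (P := fun d => mk ((⇑f)^[d] x)) h1 h2 h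
    (fun i hi => absurd hi (Nat.not_lt_zero i))

include hf in
theorem fd_false {x : List Bool} (h : mk x = false) : fd f mk R x = fd f mk R (f x) + 1 := by
  obtain ⟨h1, h2⟩ := fd_spec hf x
  obtain ⟨h3, h4⟩ := fd_spec hf (f x)
  refine least_unique (P := fun d => mk ((⇑f)^[d] x)) h1 h2 ?_ ?_
  · rw [Function.iterate_succ_apply]
    exact h3
  · intro i hi
    cases i with
    | zero => exact h
    | succ i =>
      rw [Function.iterate_succ_apply]
      exact h4 i (by omega)

include hf in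
theorem gap_true {x : List Bool} (h : mk (f x) = true) :
    gap f mk R x = bk f mk R x + 1 := by
  unfold gap
  rw [fd_true hf h]

include hb hf

theorem gap_false {x : List Bool} (h : mk (f x) = false) : gap f mk R (f x) = gap f mk R x := by
  unfold gap
  rw [bk_false hb h, fd_false hf h]
  omega

/-- **The colouring lemma.** -/
theorem colour_ok {E : Fin k → Fin k → Prop} {wk : ℕ → ℕ → Fin k} {x : List Bool}
    (hW : ∀ p < gap f mk R x, E (wk (gap f mk R x) p) (wk (gap f mk R x) (p + 1)))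
    (hJ : mk (f x) = true → wk (gap f mk R (f x)) 0 = wk (gap f mk R x) (gap f mk R x)) :
    E (wk (gap f mk R x) (bk f mk R x)) (wk (gap f mk R (f x)) (bk f mk R (f x))) := by
  have hlt : bk f mk R x < gap f mk R x := by unfold gap; omega
  cases h : mk (f x) with
  | false =>
    rw [gap_false hb hf h, bk_false hb h]
    exact hW _ hlt
  | true =>
    rw [bk_true hb h, hJ h]
    have := hW _ hlt
    rw [← gap_true hf h] at this
    exact this

/-- the markers at both ends of the gap -/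
theorem gap_ends (x : List Bool) : ∃ y, mk y = true ∧ (⇑f)^[bk f mk R x] y = x ∧
    mk ((⇑f)^[gap f mk R x] y) = true := by
  obtain ⟨h1, _⟩ := bk_spec hb x
  obtain ⟨h3, _⟩ := fd_spec hf (f x)
  refine ⟨_, h1, ?_, ?_⟩
  · rw [iterate_inv, Equiv.Perm.iterate_eq_pow, ← zpow_natCast, ← Equiv.Perm.mul_apply, ← zpow_add,
      add_neg_cancel]
    rfl
  · have e : (⇑f)^[gap f mk R x] ((⇑f⁻¹)^[bk f mk R x] x) = (⇑f)^[fd f mk R (f x)] (f x) := by
      unfold gap
      rw [iterate_inv, Equiv.Perm.iterate_eq_pow, ← zpow_natCast, ← Equiv.Perm.mul_apply,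
        ← zpow_add, Equiv.Perm.iterate_eq_pow, ← zpow_natCast]
      have : (((bk f mk R x + fd f mk R (f x) + 1 : ℕ) : ℤ) + -((bk f mk R x : ℕ) : ℤ)) =
          ((fd f mk R (f x) : ℕ) : ℤ) + 1 := by push_cast; ring
      rw [this, zpow_add, Equiv.Perm.mul_apply, zpow_one]
    rw [e]
    exact h3

omit hb hf in
/-- a closed walk from a colouring -/
theorem wlk_of_colouring {E : Fin k → Fin k → Prop} {c : List Bool → Fin k}
    (hc : ∀ x, f x ≠ x → E (c x) (c (f x))) {x : List Bool} (hx : f x ≠ x) {n m : ℕ}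
    {y : List Bool} (hy : (⇑f)^[m] x = y) (n' : ℕ) (hn : (⇑f)^[n] y = (⇑f)^[n'] x) :
    Wlk E n (c y) (c ((⇑f)^[n'] x)) := by
  refine ⟨fun i => c ((⇑f)^[i] y), rfl, by rw [← hn], fun i _ => ?_⟩
  change E (c ((⇑f)^[i] y)) (c ((⇑f)^[i + 1] y))
  rw [Function.iterate_succ_apply']
  refine hc _ fun h => hx ?_
  rw [← hy, ← Function.iterate_add_apply] at h
  have h2 : (⇑f)^[i + m] (f x) = (⇑f)^[i + m] x := by
    rw [← Function.iterate_succ_apply, Function.iterate_succ_apply', h]
  exact f.injective.iterate _ h2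

end

/-! ### Cycles on which the smallest element is marked -/

section short

variable {f : Equiv.Perm (List Bool)} {mk : List Bool → Bool} {R : ℕ → ℕ}
  (hlen : ∀ x, (f x).length = x.length)

theorem mem_orbit {L : ℕ} {x : List Bool} (hL : 0 < L) (hx : (⇑f)^[L] x = x) (i j : ℕ) :
    ∃ d < L, (⇑f)^[d] ((⇑f)^[i] x) = (⇑f)^[j] x := by
  have h1 : Function.IsPeriodicPt (⇑f) L x := hx
  have h2 : Function.IsPeriodicPt (⇑f) L ((⇑f)^[i] x) := h1.apply_iterate i
  refine ⟨(j + (L - 1) * i) % L, Nat.mod_lt _ hL, ?_⟩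
  rw [h2.iterate_mod_apply, ← Function.iterate_add_apply]
  have e : j + (L - 1) * i + i = j + L * i := by
    obtain ⟨l, rfl⟩ : ∃ l, L = l + 1 := ⟨L - 1, by omega⟩
    simp only [Nat.add_sub_cancel]
    ring
  rw [e, Function.iterate_add_apply]
  congr 1
  exact h1.mul_const i

theorem inv_iter_eq {L : ℕ} {x : List Bool} (hL : 0 < L) (hx : (⇑f)^[L] x = x) (d : ℕ) :
    ∃ i, (⇑f⁻¹)^[d] x = (⇑f)^[i] x := by
  have h1 : Function.IsPeriodicPt (⇑f) L x := hx
  refine ⟨(L - 1) * d, ?_⟩
  have e : (L - 1) * d + d = L * d := by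
    obtain ⟨l, rfl⟩ : ∃ l, L = l + 1 := ⟨L - 1, by omega⟩
    simp only [Nat.add_sub_cancel]
    ring
  have h2 : (⇑f)^[L * d] x = x := h1.mul_const d
  rw [← e, Nat.add_comm, Function.iterate_add_apply] at h2
  conv_lhs => rw [← h2]
  rw [iterate_inv, Equiv.Perm.iterate_eq_pow, ← zpow_natCast, ← Equiv.Perm.mul_apply, ← zpow_add,
    neg_add_cancel]
  rfl

include hlen in
theorem short_unique {L m : ℕ} {x : List Bool} (hL : 0 < L) (hLm : L ≤ m) (hx : (⇑f)^[L] x = x)
    (hmk : ∀ i, mk ((⇑f)^[i] x) = true →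
      ∀ j ≤ m, valB ((⇑f)^[i] x) ≤ valB ((⇑f)^[j] ((⇑f)^[i] x)))
    {i j : ℕ} (hi : mk ((⇑f)^[i] x) = true) (hj : mk ((⇑f)^[j] x) = true) :
    (⇑f)^[i] x = (⇑f)^[j] x := by
  obtain ⟨d, hd, h1⟩ := mem_orbit hL hx i j
  obtain ⟨e, he, h2⟩ := mem_orbit hL hx j i
  have h3 := hmk i hi d (by omega)
  have h4 := hmk j hj e (by omega)
  rw [h1] at h3
  rw [h2] at h4
  refine valB_inj ?_ (le_antisymm h3 h4)
  rw [iter_length hlen, iter_length hlen]

theorem short_exists {L m : ℕ} {x : List Bool} (hL : 0 < L) (hx : (⇑f)^[L] x = x)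
    (hmk : ∀ i, (∀ j ≤ m, valB ((⇑f)^[i] x) ≤ valB ((⇑f)^[j] ((⇑f)^[i] x))) →
      mk ((⇑f)^[i] x) = true) :
    (∃ d ≤ L, mk ((⇑f⁻¹)^[d] x) = true) ∧ ∃ d ≤ L, mk ((⇑f)^[d] x) = true := by
  have h1 : Function.IsPeriodicPt (⇑f) L x := hx
  obtain ⟨j₀, hj₀, hmin⟩ := Finset.exists_min_image (Finset.range L)
    (fun j => valB ((⇑f)^[j] x)) ⟨0, by simpa using hL⟩
  rw [Finset.mem_range] at hj₀
  have h2 : mk ((⇑f)^[j₀] x) = true := by
    refine hmk j₀ fun j _ => ?_
    rw [← Function.iterate_add_apply, ← h1.iterate_mod_apply (j + j₀)]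
    exact hmin _ (Finset.mem_range.2 (Nat.mod_lt _ hL))
  refine ⟨⟨L - j₀, by omega, ?_⟩, j₀, hj₀.le, h2⟩
  have h3 : (⇑f⁻¹)^[L - j₀] x = (⇑f)^[j₀] x := by
    conv_lhs => rw [← hx]
    rw [iterate_inv, Equiv.Perm.iterate_eq_pow, ← zpow_natCast, ← Equiv.Perm.mul_apply,
      ← zpow_add, Equiv.Perm.iterate_eq_pow, ← zpow_natCast]
    congr 2
    push_cast [Nat.cast_sub hj₀.le]
    ring
  rw [h3]
  exact h2

include hlen in
/-- On such a cycle the gap is a period, constant along the cycle. -/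
theorem short_gap (hb : ∀ x, ∃ d < R x.length, mk ((⇑f⁻¹)^[d] x) = true)
    (hf : ∀ x, ∃ d < R x.length, mk ((⇑f)^[d] x) = true)
    {L m : ℕ} {x : List Bool} (hL : 0 < L) (hLm : L ≤ m) (hx : (⇑f)^[L] x = x)
    (hmk : ∀ i, mk ((⇑f)^[i] x) = true →
      ∀ j ≤ m, valB ((⇑f)^[i] x) ≤ valB ((⇑f)^[j] ((⇑f)^[i] x))) :
    (⇑f)^[gap f mk R x] x = x ∧ gap f mk R (f x) = gap f mk R x := by
  have huniq := fun i j => short_unique hlen hL hLm hx hmk (i := i) (j := j)
  constructor
  · obtain ⟨h1, _⟩ := bk_spec hb x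
    obtain ⟨h3, _⟩ := fd_spec hf (f x)
    obtain ⟨i, hi⟩ := inv_iter_eq hL hx (bk f mk R x)
    have h5 : (⇑f)^[fd f mk R (f x)] (f x) = (⇑f)^[fd f mk R (f x) + 1] x :=
      (Function.iterate_succ_apply _ _ _).symm
    rw [hi] at h1
    rw [h5] at h3
    have h6 := huniq _ _ h1 h3
    have h7 : (⇑f)^[bk f mk R x] ((⇑f)^[i] x) = x := by
      rw [← hi, iterate_inv, Equiv.Perm.iterate_eq_pow, ← zpow_natCast, ← Equiv.Perm.mul_apply,
        ← zpow_add, add_neg_cancel]
      rfl
    unfold gap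
    rw [Nat.add_assoc, Function.iterate_add_apply, ← h6, h7]
  · cases h : mk (f x) with
    | false => exact gap_false hb hf h
    | true =>
      rw [gap_true hf h]
      have e0 : f x = (⇑f)^[1] x := rfl
      have hy : mk ((⇑f)^[1] x) = true := h
      -- the return times in both directions
      have hA : (⇑f)^[gap f mk R (f x)] (f x) = f x := by
        have hg : gap f mk R (f x) = fd f mk R (f (f x)) + 1 := by
          unfold gap; rw [bk_true hb h]; omega
        obtain ⟨h3, _⟩ := fd_spec hf (f (f x))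
        have e1 : (⇑f)^[fd f mk R (f (f x))] (f (f x)) =
            (⇑f)^[fd f mk R (f (f x)) + 1 + 1] x := by
          rw [Function.iterate_succ_apply, Function.iterate_succ_apply]
        rw [e1] at h3
        rw [hg, e0, ← Function.iterate_add_apply]
        exact huniq _ _ h3 hy
      have hB : (⇑f)^[bk f mk R x + 1] (f x) = f x := by
        obtain ⟨h1, _⟩ := bk_spec hb x
        obtain ⟨i, hi⟩ := inv_iter_eq hL hx (bk f mk R x)
        rw [hi] at h1
        have h6 := huniq _ _ h1 hy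
        have h7 : (⇑f)^[bk f mk R x] ((⇑f)^[i] x) = x := by
          rw [← hi, iterate_inv, Equiv.Perm.iterate_eq_pow, ← zpow_natCast,
            ← Equiv.Perm.mul_apply, ← zpow_add, add_neg_cancel]
          rfl
        rw [h6] at h7
        rw [Function.iterate_succ_apply', e0, h7]
        rfl
      apply le_antisymm
      · -- `bk x + 1` is a return time
        have hg : gap f mk R (f x) = fd f mk R (f (f x)) + 1 := by
          unfold gap; rw [bk_true hb h]; omega
        obtain ⟨_, h4⟩ := fd_spec hf (f (f x))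
        rw [hg]
        by_contra hcon
        have h5 := h4 (bk f mk R x) (by omega)
        rw [← Function.iterate_succ_apply, hB, h] at h5
        exact absurd h5 (by simp)
      · obtain ⟨_, h4⟩ := bk_spec hb x
        by_contra hcon
        have hpos : 0 < gap f mk R (f x) := by unfold gap; omega
        have h5 := h4 (gap f mk R (f x) - 1) (by omega)
        have h6 : (⇑f⁻¹)^[gap f mk R (f x) - 1] x = f x := by
          rw [← inv_iter_succ, Nat.sub_add_cancel hpos]
          generalize gap f mk R (f x) = n at hA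
          conv_lhs => rw [← hA]
          rw [iterate_inv, Equiv.Perm.iterate_eq_pow, ← zpow_natCast,
            ← Equiv.Perm.mul_apply, ← zpow_add, neg_add_cancel]
          rfl
        rw [h6, h] at h5
        exact absurd h5 (by simp)

end short

/-! ### Local maxima of a sequence -/

section seq

variable {a : ℤ → ℕ} {b : ℤ → Bool} {M Q : ℕ}

theorem seq_exists (hQ : ∀ t, a t < Q) (hne : ∀ t (j : ℕ), 1 ≤ j → j ≤ M → a (t + j) ≠ a t)
    (hb : ∀ t, (∀ j : ℕ, 1 ≤ j → j ≤ M → a (t + j) < a t ∧ a (t - j) < a t) → b t = true) :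
    ∀ (q : ℕ) (t : ℤ), Q - a t ≤ q → ∃ s, |s - t| ≤ M * q ∧ b s = true := by
  intro q
  induction q with
  | zero =>
    intro t ht
    have := hQ t
    omega
  | succ q ih =>
    intro t ht
    by_cases h : b t = true
    · refine ⟨t, ?_, h⟩
      rw [sub_self, abs_zero]
      positivity
    · have h1 : ¬ ∀ j : ℕ, 1 ≤ j → j ≤ M → a (t + j) < a t ∧ a (t - j) < a t :=
        fun h' => h (hb t h')
      push Not at h1
      obtain ⟨j, hj1, hj2, h2⟩ := h1
      have hj2' : (j : ℤ) ≤ M := by exact_mod_cast hj2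
      have hMq : ((M : ℤ)) * ((q + 1 : ℕ) : ℤ) = M * q + M := by push_cast; ring
      by_cases h3 : a (t + j) < a t
      · have h4 := h2 h3
        have h5 : a (t - j) ≠ a t := by
          have := hne (t - j) j hj1 hj2
          rw [sub_add_cancel] at this
          exact fun h => this h.symm
        obtain ⟨s, hs, hs'⟩ := ih (t - j) (by omega)
        refine ⟨s, ?_, hs'⟩
        rw [hMq]
        rw [abs_le] at hs ⊢
        constructor <;> linarith [hs.1, hs.2]
      · have h5 := hne t j hj1 hj2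
        obtain ⟨s, hs, hs'⟩ := ih (t + j) (by omega)
        refine ⟨s, ?_, hs'⟩
        rw [hMq]
        rw [abs_le] at hs ⊢
        constructor <;> linarith [hs.1, hs.2]

theorem seq_gap (hb : ∀ t, b t = true →
      (∀ j : ℕ, 1 ≤ j → j ≤ M → a (t + j) < a t ∧ a (t - j) < a t))
    {t : ℤ} {g : ℕ} (hg : 1 ≤ g) (h1 : b t = true) (h2 : b (t + g) = true) : M < g := by
  by_contra hcon
  have h3 := (hb t h1 g hg (by omega)).1
  have h4 := (hb (t + g) h2 g hg (by omega)).2
  rw [add_sub_cancel_right] at h4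
  omega

end seq

end Pool.Agent.W890.LC
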