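import Pool.Agent.W890.LC.Flex

/-!
# Colouring under the hypothesis `P = PSPACE`
-/

namespace Pool.Agent.W890.LC

open Pool.Agent.NPC Pool.Agent.NPC.PIso
open Pool.Agent.W903.GP (pconst srch srch_spec srch_of iterate_inv inv_length iter_length
  srch_iterate_le Sp sp_iterate inPSPACE_of_sp)

variable {k : ℕ}

/-- If `P = PSPACE`, a bounded polynomial-space function is polynomial-time. -/
theorem poly_of_sp_bdd (hP : ∀ L : Set (List Bool), InPSPACE L → InP L) {F : List Bool → ℕ}
    (hF : Sp F) {B : ℕ} (hB : ∀ x, F x < B) : Pool.Agent.NPC.Poly F := by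
  have key : ∀ i : ℕ, ∃ V : List Bool → List Bool, Pool.Agent.NPC.Poly V ∧
      ∀ x, F x = i ↔ V x = [true] := by
    intro i
    have h1 : Sp (fun x => decide (F x = i)) :=
      hF.post (g := fun n : ℕ => decide (n = i)) (Poly.decide_eq Pool.Agent.NPC.Poly.id (pconst i))
    obtain ⟨V, hV, hVL⟩ := hP {x | F x = i} (inPSPACE_of_sp h1 fun x => by simp)
    exact ⟨V, poly_iff.2 hV, hVL⟩
  choose V hV hVF using key
  have h2 : ∀ n : ℕ, Pool.Agent.NPC.Poly (fun x => bif decide (F x < n) then F x else 0) := by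
    intro n
    induction n with
    | zero => exact (pconst 0).congr fun x => by simp
    | succ n ih =>
      refine (Poly.cond (Poly.decide_eq (hV n) (pconst [true])) (pconst n) ih).congr fun x => ?_
      by_cases h : F x = n
      · rw [decide_eq_true ((hVF n x).1 h), decide_eq_true (show F x < n + 1 by omega), cond_true,
          cond_true, h]
      · rw [decide_eq_false (fun h' => h ((hVF n x).2 h')), cond_false]
        by_cases h3 : F x < n
        · rw [decide_eq_true h3, decide_eq_true (show F x < n + 1 by omega)]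
        · rw [decide_eq_false h3, decide_eq_false (show ¬ F x < n + 1 by omega)]
  exact (h2 B).congr fun x => by rw [decide_eq_true (hB x), cond_true]

section

variable (f : Equiv.Perm (List Bool))

/-- the marked points: the smallest element of each cycle -/
def mkS (x : List Bool) : Bool :=
  decide (srch (fun j => decide (valB ((⇑f)^[j] x) < valB x)) (2 ^ x.length + 1) =
    2 ^ x.length + 1)

/-- the bound for the search -/
def RS (n : ℕ) : ℕ := 2 ^ n + 1

variable {f}

theorem mkS_iff {x : List Bool} :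
    mkS f x = true ↔ ∀ j ≤ 2 ^ x.length, valB x ≤ valB ((⇑f)^[j] x) := by
  unfold mkS
  rw [decide_eq_true_iff]
  obtain ⟨h1, h2, h3⟩ := srch_spec (fun j => decide (valB ((⇑f)^[j] x) < valB x))
    (2 ^ x.length + 1)
  constructor
  · intro h j hj
    have h4 := h2 j (by rw [h]; omega)
    rw [decide_eq_false_iff_not, not_lt] at h4
    exact h4
  · intro h
    rcases h3 with h3 | h3
    · rw [decide_eq_true_iff] at h3
      by_contra hcon
      have := h _ (show srch (fun j => decide (valB ((⇑f)^[j] x) < valB x))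
        (2 ^ x.length + 1) ≤ 2 ^ x.length by omega)
      omega
    · exact h3

variable (hlen : ∀ x, (f x).length = x.length)

include hlen

theorem sp_mkS (hf : Sp ⇑f) : Sp (mkS f) := by
  have hpow : Pool.Agent.NPC.Poly (fun x : List Bool => 2 ^ x.length + 1) :=
    Poly.succ (Pool.Agent.W903.GP.poly_pow Pool.Agent.NPC.Poly.id)
  have hE : Sp (fun p : List Bool × ℕ => valB ((⇑f)^[p.2] p.1)) :=
    (sp_iterate hf hlen).post (g := fun y : List Bool => valB y)
      (Poly.valBits Pool.Agent.NPC.Poly.id)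
  have a2 : Sp (fun p : List Bool × ℕ => valB p.1) :=
    (Sp.fst Sp.id).post (g := fun y : List Bool => valB y) (Poly.valBits Pool.Agent.NPC.Poly.id)
  have a3 : Sp (fun p : List Bool × ℕ => decide (valB ((⇑f)^[p.2] p.1) < valB p.1)) :=
    Sp.op2 (g := fun p : ℕ × ℕ => decide (p.1 < p.2)) hE a2
      (Poly.decide_lt (Poly.fst Pool.Agent.NPC.Poly.id) (Poly.snd Pool.Agent.NPC.Poly.id))
  have a5 : Sp (fun x : List Bool =>
      srch (fun j => decide (valB ((⇑f)^[j] x) < valB x)) (2 ^ x.length + 1)) :=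
    Sp.srch (P := fun (x : List Bool) j => decide (valB ((⇑f)^[j] x) < valB x)) a3
      (Sp.of_poly hpow)
  exact Sp.op2 (g := fun p : ℕ × ℕ => decide (p.1 = p.2)) a5 (Sp.of_poly hpow)
    (Poly.decide_eq (Poly.fst Pool.Agent.NPC.Poly.id) (Poly.snd Pool.Agent.NPC.Poly.id))

theorem sp_srchS {g : List Bool → List Bool} (hg : Sp g) (hglen : ∀ x, (g x).length = x.length)
    (hf : Sp ⇑f) : Sp (fun x : List Bool => srch (fun d => mkS f (g^[d] x)) (RS x.length)) := by
  have hpow : Pool.Agent.NPC.Poly (fun x : List Bool => 2 ^ x.length + 1) :=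
    Poly.succ (Pool.Agent.W903.GP.poly_pow Pool.Agent.NPC.Poly.id)
  exact Sp.srch (P := fun (x : List Bool) d => mkS f (g^[d] x))
    ((sp_mkS hlen hf).comp (sp_iterate hg hglen)) (Sp.of_poly hpow)

theorem mkS_iter {x : List Bool} {i : ℕ} : mkS f ((⇑f)^[i] x) = true ↔
    ∀ j ≤ 2 ^ x.length, valB ((⇑f)^[i] x) ≤ valB ((⇑f)^[j] ((⇑f)^[i] x)) := by
  rw [mkS_iff, iter_length hlen]

theorem existsS (x : List Bool) : (∃ d < RS x.length, mkS f ((⇑f⁻¹)^[d] x) = true) ∧
    ∃ d < RS x.length, mkS f ((⇑f)^[d] x) = true := by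
  obtain ⟨L, h1, h2, h3⟩ := Pool.Agent.W903.GP.exists_period f.injective hlen x
  obtain ⟨⟨d, hd, hd'⟩, e, he, he'⟩ := short_exists (mk := mkS f) h1 h3
    (fun i hi => (mkS_iter hlen).2 hi)
  exact ⟨⟨d, by unfold RS; omega, hd'⟩, e, by unfold RS; omega, he'⟩

/-- **Colouring if `P = PSPACE`.** -/
theorem poly_space (hP : ∀ L : Set (List Bool), InPSPACE L → InP L) {E : Fin k → Fin k → Prop}
    (hf : Pool.Agent.NPC.Poly ⇑f) (hf' : Pool.Agent.NPC.Poly ⇑f⁻¹) {c₀ : List Bool → Fin k}
    (hc₀ : ∀ x, f x ≠ x → E (c₀ x) (c₀ (f x))) :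
    ∃ c : List Bool → Fin k, Pool.Agent.NPC.Poly (fun x => ((c x : Fin k) : ℕ)) ∧
      ∀ x, f x ≠ x → E (c x) (c (f x)) := by
  obtain ⟨wk, hwk, hwk2⟩ := exists_wk E (c₀ [])
  have hb := fun x => (existsS hlen x).1
  have hfd := fun x => (existsS hlen x).2
  refine ⟨fun x => wk (gap f (mkS f) RS x) (bk f (mkS f) RS x), ?_, ?_⟩
  · have h1 : Sp (bk f (mkS f) RS) :=
      sp_srchS hlen (Sp.of_poly hf') (inv_length f hlen) (Sp.of_poly hf)
    have h2 : Sp (fd f (mkS f) RS) := sp_srchS hlen (Sp.of_poly hf) hlen (Sp.of_poly hf)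
    have h3 : Sp (gap f (mkS f) RS) :=
      Sp.op2 (g := fun p : ℕ × ℕ => p.1 + p.2 + 1) h1 (h2.comp (Sp.of_poly hf))
        (Poly.succ (Poly.add (Poly.fst Pool.Agent.NPC.Poly.id)
          (Poly.snd Pool.Agent.NPC.Poly.id)))
    exact poly_of_sp_bdd hP (Sp.op2 h3 h1 hwk) (B := k) fun x => Fin.is_lt _
  · intro x hx
    obtain ⟨L, h1, h2, h3⟩ := Pool.Agent.W903.GP.exists_period f.injective hlen x
    obtain ⟨g1, g2⟩ := short_gap hlen hb hfd h1 h2 h3 (fun i hi => (mkS_iter hlen).1 hi)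
    have hpos : 0 < gap f (mkS f) RS x := by unfold gap; omega
    have hcw := hwk2 _ hpos ⟨c₀ x, wlk_of_colouring hc₀ hx (m := 0) rfl 0 g1⟩
    refine colour_ok hb hfd hcw.2 fun _ => ?_
    rw [g2]
    exact hcw.1

end

end Pool.Agent.W890.LC
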