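import Pool.Agent.W890.LC.Space

/-!
# A permutation whose cycle lengths are multiples of `T` and which hides the answer of a
computation in a distance modulo `T`
-/

namespace Pool.Agent.W890.LC

open Pool.Agent.NPC Pool.Agent.NPC.PIso
open Pool.Agent.W903.GP (pconst iterate_inv inv_length iter_length)

/-! ### Strings with a content and a label -/

section str

variable (B : ℕ)

/-- the string with content `d` and label `c` -/
def sB (d : List Bool) (c : ℕ) : List Bool := d ++ pad (d.length + B) c

/-- the length of the content -/
def lB (y : List Bool) : ℕ := (y.length - B) / 2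

/-- the content -/
def cB (y : List Bool) : List Bool := y.take (lB B y)

/-- the label -/
def kB (y : List Bool) : ℕ := valB (y.drop (lB B y))

/-- the string has a content and a label -/
def vB (y : List Bool) : Bool := decide (y.length = 2 * lB B y + B)

variable {B}

theorem sB_length {d : List Bool} {i : ℕ} (hi : i < 2 ^ (d.length + B)) :
    (sB B d i).length = 2 * d.length + B := by
  unfold sB
  rw [List.length_append, pad_length hi]
  ring

theorem lB_sB {d : List Bool} {i : ℕ} (hi : i < 2 ^ (d.length + B)) :
    lB B (sB B d i) = d.length := by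
  unfold lB
  rw [sB_length hi]
  omega

theorem cB_sB {d : List Bool} {i : ℕ} (hi : i < 2 ^ (d.length + B)) : cB B (sB B d i) = d := by
  unfold cB
  rw [lB_sB hi]
  unfold sB
  rw [List.take_left]

theorem kB_sB {d : List Bool} {i : ℕ} (hi : i < 2 ^ (d.length + B)) : kB B (sB B d i) = i := by
  unfold kB
  rw [lB_sB hi]
  unfold sB
  rw [List.drop_left, valB_pad]

theorem vB_sB {d : List Bool} {i : ℕ} (hi : i < 2 ^ (d.length + B)) : vB B (sB B d i) = true := by
  unfold vB
  rw [lB_sB hi, sB_length hi]
  simp

theorem cB_length {y : List Bool} (h : vB B y = true) : (cB B y).length = lB B y := by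
  unfold vB at h
  rw [decide_eq_true_eq] at h
  unfold cB
  rw [List.length_take]
  omega

theorem kB_lt {y : List Bool} (h : vB B y = true) : kB B y < 2 ^ ((cB B y).length + B) := by
  rw [cB_length h]
  unfold kB
  refine (valB_lt _).trans_le (Nat.pow_le_pow_right (by norm_num) ?_)
  unfold vB at h
  rw [decide_eq_true_eq] at h
  rw [List.length_drop]
  omega

theorem sB_cB_kB {y : List Bool} (h : vB B y = true) : sB B (cB B y) (kB B y) = y := by
  have h2 := cB_length h
  unfold sB
  rw [h2]
  have h3 : (y.drop (lB B y)).length = lB B y + B := by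
    unfold vB at h
    rw [decide_eq_true_eq] at h
    rw [List.length_drop]
    omega
  unfold kB
  rw [pad_valB h3]
  unfold cB
  exact List.take_append_drop _ _

/-- a map of contents and labels, on strings -/
def lft (B : ℕ) (g : List Bool × ℕ → List Bool × ℕ) (y : List Bool) : List Bool :=
  bif vB B y then sB B (g (cB B y, kB B y)).1 (g (cB B y, kB B y)).2 else y

/-- the map preserves the length of the content and the bound on the label -/
def Ok (B : ℕ) (g : List Bool × ℕ → List Bool × ℕ) : Prop :=
  ∀ d c, c < 2 ^ (d.length + B) → (g (d, c)).1.length = d.length ∧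
    (g (d, c)).2 < 2 ^ (d.length + B)

theorem lft_sB (g : List Bool × ℕ → List Bool × ℕ) {d : List Bool} {c : ℕ}
    (h : c < 2 ^ (d.length + B)) : lft B g (sB B d c) = sB B (g (d, c)).1 (g (d, c)).2 := by
  unfold lft
  rw [vB_sB h, cond_true, cB_sB h, kB_sB h]

theorem lft_length {g : List Bool × ℕ → List Bool × ℕ} (hg : Ok B g) (y : List Bool) :
    (lft B g y).length = y.length := by
  cases h : vB B y with
  | false => unfold lft; rw [h, cond_false]
  | true =>
    have h1 := kB_lt h
    obtain ⟨h2, h3⟩ := hg _ _ h1
    conv_rhs => rw [← sB_cB_kB h]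
    conv_lhs => rw [← sB_cB_kB h]
    rw [lft_sB g h1, sB_length h1, sB_length (by rw [h2]; exact h3), h2]

theorem lft_lft {g g' : List Bool × ℕ → List Bool × ℕ} (hg : Ok B g)
    (h : ∀ d c, c < 2 ^ (d.length + B) → g' (g (d, c)) = (d, c)) (y : List Bool) :
    lft B g' (lft B g y) = y := by
  cases hv : vB B y with
  | false => unfold lft; rw [hv, cond_false, hv, cond_false]
  | true =>
    have h1 := kB_lt hv
    obtain ⟨h2, h3⟩ := hg _ _ h1
    conv_lhs => rw [← sB_cB_kB hv]
    rw [lft_sB g h1, lft_sB g' (by rw [h2]; exact h3)]
    change sB B (g' (g (cB B y, kB B y))).1 (g' (g (cB B y, kB B y))).2 = y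
    rw [h _ _ h1]
    exact sB_cB_kB hv

theorem poly_lB {α : Type} [TEnc α] {y : α → List Bool} (hy : Pool.Agent.NPC.Poly y) :
    Pool.Agent.NPC.Poly (fun a => lB B (y a)) := by
  unfold lB
  exact Poly.div (Poly.sub (Poly.length hy) (pconst B)) (pconst 2)

theorem poly_cB {α : Type} [TEnc α] {y : α → List Bool} (hy : Pool.Agent.NPC.Poly y) :
    Pool.Agent.NPC.Poly (fun a => cB B (y a)) := by
  unfold cB
  exact Pool.Agent.NPC.Mix.T1.poly_take hy (poly_lB hy)

theorem poly_kB {α : Type} [TEnc α] {y : α → List Bool} (hy : Pool.Agent.NPC.Poly y) :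
    Pool.Agent.NPC.Poly (fun a => kB B (y a)) := by
  unfold kB
  exact Poly.valBits (Pool.Agent.NPC.Mix.T1.poly_drop hy (poly_lB hy))

theorem poly_vB {α : Type} [TEnc α] {y : α → List Bool} (hy : Pool.Agent.NPC.Poly y) :
    Pool.Agent.NPC.Poly (fun a => vB B (y a)) := by
  unfold vB
  exact Poly.decide_eq (Poly.length hy) (Poly.add (Poly.mul (pconst 2) (poly_lB hy)) (pconst B))

theorem poly_sB {α : Type} [TEnc α] {d : α → List Bool} {c : α → ℕ}
    (hd : Pool.Agent.NPC.Poly d) (hc : Pool.Agent.NPC.Poly c) :
    Pool.Agent.NPC.Poly (fun a => sB B (d a) (c a)) := by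
  unfold sB
  exact Poly.append hd (poly_pad ((UPoly.length hd).add (UPoly.const B)) hc)

theorem poly_lft {g : List Bool × ℕ → List Bool × ℕ} (hg : Pool.Agent.NPC.Poly g) :
    Pool.Agent.NPC.Poly (lft B g) := by
  have h0 : Pool.Agent.NPC.Poly (fun y : List Bool => y) := Pool.Agent.NPC.Poly.id
  have h1 := hg.comp (Poly.pair (poly_cB (B := B) h0) (poly_kB (B := B) h0))
  exact Poly.cond (poly_vB h0) (poly_sB (Poly.fst h1) (Poly.snd h1)) h0

end str

/-! ### The dynamics on contents and labels -/

section dyn

variable (φ φi : List Bool → List Bool) (ac : List Bool → Bool) (K H S : ℕ → ℕ)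

/-- the move of the content -/
def stp (p : List Bool × ℕ) : List Bool :=
  if p.2 < K p.1.length then φ p.1
  else if p.2 < 2 * K p.1.length then φi p.1
  else if p.2 < H p.1.length then p.1
  else if p.2 < H p.1.length + K p.1.length then φ p.1
  else if p.2 < H p.1.length + 2 * K p.1.length then φi p.1
  else p.1

/-- a transposition -/
def sw (a b s : ℕ) : ℕ := if s = a then b else if s = b then a else s

/-- the detour -/
def sg (p : List Bool × ℕ) : List Bool × ℕ :=
  (p.1, if ac p.1 = true then sw (K p.1.length) (S p.1.length) p.2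
    else sw (H p.1.length + K p.1.length) (S p.1.length + 1) p.2)

/-- the move of the content -/
def mv (p : List Bool × ℕ) : List Bool × ℕ := (stp φ φi K H p, p.2)

/-- the rotation of the labels -/
def ro (p : List Bool × ℕ) : List Bool × ℕ :=
  (p.1, if p.2 + 1 < S p.1.length then p.2 + 1 else if p.2 + 1 = S p.1.length then 0 else p.2)

/-- the rotation of the labels, backwards -/
def roi (p : List Bool × ℕ) : List Bool × ℕ :=
  (p.1, if p.2 = 0 then S p.1.length - 1 else if p.2 < S p.1.length then p.2 - 1 else p.2)

/-- the dynamics -/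
def F (p : List Bool × ℕ) : List Bool × ℕ := ro S (mv φ φi K H (sg ac K H S p))

/-- the inverse dynamics -/
def Fi (p : List Bool × ℕ) : List Bool × ℕ := sg ac K H S (mv φi φ K H (roi S p))

variable {φ φi ac K H S}
variable (h1 : ∀ d, φ (φi d) = d) (h2 : ∀ d, φi (φ d) = d) (hl : ∀ d, (φ d).length = d.length)
  (hl' : ∀ d, (φi d).length = d.length) (hK : ∀ n, 1 ≤ K n) (hH : ∀ n, 2 * K n < H n)
  (hS : ∀ n, H n + 2 * K n < S n) {B : ℕ} (hB : ∀ n, S n + 1 < 2 ^ (n + B))

include hl hl'

theorem stp_length (d : List Bool) (c : ℕ) : (stp φ φi K H (d, c)).length = d.length := by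
  unfold stp
  split_ifs <;> simp only [hl, hl']

omit hl hl'

theorem sw_sw (a b s : ℕ) : sw a b (sw a b s) = s := by
  unfold sw
  split_ifs <;> omega

theorem sg_sg (p : List Bool × ℕ) : sg ac K H S (sg ac K H S p) = p := by
  unfold sg
  cases ac p.1 with
  | true => simp only [if_true, sw_sw]
  | false => simp only [Bool.false_eq_true, if_false, sw_sw]

include h1 h2 hl hl' in
theorem mv_mv (p : List Bool × ℕ) : mv φi φ K H (mv φ φi K H p) = p := by
  obtain ⟨d, s⟩ := p
  have hlen := stp_length (K := K) (H := H) hl hl' d s
  have e : stp φi φ K H (stp φ φi K H (d, s), s) = d := by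
    have e1 : ∀ d' : List Bool, d'.length = d.length → stp φi φ K H (d', s) =
        if s < K d.length then φi d' else if s < 2 * K d.length then φ d'
        else if s < H d.length then d' else if s < H d.length + K d.length then φi d'
        else if s < H d.length + 2 * K d.length then φ d' else d' := by
      intro d' hd'
      unfold stp
      simp only [hd']
    rw [e1 _ hlen]
    unfold stp
    split_ifs <;> first | rfl | exact h1 d | exact h2 d
  unfold mv
  rw [e]

include hS hK in
theorem roi_ro (p : List Bool × ℕ) : roi S (ro S p) = p := by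
  obtain ⟨d, s⟩ := p
  have a1 := hS d.length
  have a2 := hK d.length
  unfold roi ro
  simp only [Prod.mk.injEq, true_and]
  by_cases c1 : s + 1 < S d.length
  · rw [if_pos c1, if_neg (by omega), if_pos (by omega)]
    omega
  · rw [if_neg c1]
    by_cases c2 : s + 1 = S d.length
    · rw [if_pos c2, if_pos rfl]
      omega
    · rw [if_neg c2, if_neg (by omega), if_neg (by omega)]

include hS hK in
theorem ro_roi (p : List Bool × ℕ) : ro S (roi S p) = p := by
  obtain ⟨d, s⟩ := p
  have a1 := hS d.length
  have a2 := hK d.length
  unfold roi ro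
  simp only [Prod.mk.injEq, true_and]
  by_cases c1 : s = 0
  · rw [if_pos c1, if_neg (by omega), if_pos (by omega)]
    omega
  · rw [if_neg c1]
    by_cases c2 : s < S d.length
    · rw [if_pos c2, if_pos (by omega)]
      omega
    · rw [if_neg c2, if_neg (by omega), if_neg (by omega)]

include h1 h2 hl hl' hK hS

theorem Fi_F (p : List Bool × ℕ) : Fi φ φi ac K H S (F φ φi ac K H S p) = p := by
  unfold Fi F
  rw [roi_ro hK hS, mv_mv h1 h2 hl hl', sg_sg]

theorem F_Fi (p : List Bool × ℕ) : F φ φi ac K H S (Fi φ φi ac K H S p) = p := by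
  unfold Fi F
  rw [sg_sg, mv_mv h2 h1 hl' hl, ro_roi hK hS]

omit h1 h2 hl hl' hK hS

include hS hB in
theorem sg_lt {d : List Bool} {c : ℕ} (hc : c < 2 ^ (d.length + B)) :
    (sg ac K H S (d, c)).2 < 2 ^ (d.length + B) := by
  have a1 := hS d.length
  have a3 := hB d.length
  unfold sg sw
  simp only
  split_ifs <;> omega

include hS hB hl hl'

theorem ok_F : Ok B (F φ φi ac K H S) := by
  intro d c hc
  have a1 := hS d.length
  have a3 := hB d.length
  have b1 := sg_lt (ac := ac) hS hB hc
  have b2 : (sg ac K H S (d, c)).1 = d := rfl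
  have b3 := stp_length (K := K) (H := H) hl hl' d (sg ac K H S (d, c)).2
  unfold F
  generalize sg ac K H S (d, c) = q at b1 b2 b3
  obtain ⟨d', s⟩ := q
  simp only at b1 b2 b3
  subst b2
  refine ⟨b3, ?_⟩
  unfold mv ro
  simp only [b3]
  split_ifs <;> omega

theorem ok_Fi : Ok B (Fi φ φi ac K H S) := by
  intro d c hc
  have a1 := hS d.length
  have a3 := hB d.length
  have b1 : (roi S (d, c)).2 < 2 ^ (d.length + B) := by
    unfold roi
    simp only
    split_ifs <;> omega
  have b2 : (roi S (d, c)).1 = d := rfl
  have b3 := stp_length (K := K) (H := H) hl' hl d (roi S (d, c)).2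
  unfold Fi
  generalize roi S (d, c) = q at b1 b2 b3
  obtain ⟨d', s⟩ := q
  simp only at b1 b2 b3
  subst b2
  unfold mv
  have b4 := sg_lt (ac := ac) (d := stp φi φ K H (d', s)) (c := s) hS hB (by rw [b3]; exact b1)
  rw [b3] at b4
  exact ⟨b3, b4⟩

omit hS hB hl hl'

/-! #### The moves -/

theorem F_run {d : List Bool} {s : ℕ} (hl : ∀ d, (φ d).length = d.length)
    (hl' : ∀ d, (φi d).length = d.length) (hs : s + 1 < S d.length)
    (h3 : s ≠ K d.length ∨ ac d = false) (h4 : s ≠ H d.length + K d.length ∨ ac d = true) :
    F φ φi ac K H S (d, s) = (stp φ φi K H (d, s), s + 1) := by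
  have e1 : sg ac K H S (d, s) = (d, s) := by
    unfold sg sw
    cases hac : ac d with
    | true =>
      rw [hac] at h3
      have : s ≠ K d.length := by simpa using h3
      simp only [if_true, Prod.mk.injEq, true_and]
      rw [if_neg this, if_neg (by omega)]
    | false =>
      rw [hac] at h4
      have : s ≠ H d.length + K d.length := by simpa using h4
      simp only [Bool.false_eq_true, if_false, Prod.mk.injEq, true_and]
      rw [if_neg this, if_neg (by omega)]
  unfold F
  rw [e1]
  unfold mv ro
  simp only [Prod.mk.injEq, true_and]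
  rw [stp_length hl hl', if_pos hs]

include hS in
theorem F_K {d : List Bool} (hac : ac d = true) :
    F φ φi ac K H S (d, K d.length) = (d, S d.length) := by
  have a1 := hS d.length
  have e1 : sg ac K H S (d, K d.length) = (d, S d.length) := by
    unfold sg sw
    simp only [hac, if_true]
  have e2 : stp φ φi K H (d, S d.length) = d := by
    unfold stp
    simp only
    rw [if_neg (by omega), if_neg (by omega), if_neg (by omega), if_neg (by omega),
      if_neg (by omega)]
  unfold F
  rw [e1]
  unfold mv ro
  rw [e2]
  simp only [Prod.mk.injEq, true_and]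
  rw [if_neg (by omega), if_neg (by omega)]

include hS in
theorem F_HK {d : List Bool} (hac : ac d = false) :
    F φ φi ac K H S (d, H d.length + K d.length) = (d, S d.length + 1) := by
  have a1 := hS d.length
  have e1 : sg ac K H S (d, H d.length + K d.length) = (d, S d.length + 1) := by
    unfold sg sw
    simp only [hac, Bool.false_eq_true, if_false, if_true]
  have e2 : stp φ φi K H (d, S d.length + 1) = d := by
    unfold stp
    simp only
    rw [if_neg (by omega), if_neg (by omega), if_neg (by omega), if_neg (by omega),
      if_neg (by omega)]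
  unfold F
  rw [e1]
  unfold mv ro
  rw [e2]
  simp only [Prod.mk.injEq, true_and]
  rw [if_neg (by omega), if_neg (by omega)]

include hS hK hH in
theorem F_S {d : List Bool} (hl' : ∀ d, (φi d).length = d.length) (hac : ac d = true) :
    F φ φi ac K H S (d, S d.length) = (φi d, K d.length + 1) := by
  have a1 := hS d.length
  have a2 := hK d.length
  have a3 := hH d.length
  have e1 : sg ac K H S (d, S d.length) = (d, K d.length) := by
    unfold sg sw
    simp only [hac, if_true]
    rw [if_neg (by omega)]
  have e2 : stp φ φi K H (d, K d.length) = φi d := by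
    unfold stp
    simp only
    rw [if_neg (by omega), if_pos (by omega)]
  unfold F
  rw [e1]
  unfold mv ro
  rw [e2]
  simp only [Prod.mk.injEq, true_and]
  rw [hl', if_pos (by omega)]

include hS hK hH in
theorem F_S1 {d : List Bool} (hl' : ∀ d, (φi d).length = d.length) (hac : ac d = false) :
    F φ φi ac K H S (d, S d.length + 1) = (φi d, H d.length + K d.length + 1) := by
  have a1 := hS d.length
  have a2 := hK d.length
  have a3 := hH d.length
  have e1 : sg ac K H S (d, S d.length + 1) = (d, H d.length + K d.length) := by
    unfold sg sw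
    simp only [hac, Bool.false_eq_true, if_false, if_true]
    rw [if_neg (by omega)]
  have e2 : stp φ φi K H (d, H d.length + K d.length) = φi d := by
    unfold stp
    simp only
    rw [if_neg (by omega), if_neg (by omega), if_neg (by omega), if_neg (by omega),
      if_pos (by omega)]
  unfold F
  rw [e1]
  unfold mv ro
  rw [e2]
  simp only [Prod.mk.injEq, true_and]
  rw [hl', if_pos (by omega)]

include hS hH in
theorem F_last {d : List Bool} {s : ℕ} (hs : s + 1 = S d.length)
    (h3 : H d.length + 2 * K d.length ≤ s) (h4 : 1 ≤ K d.length) :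
    F φ φi ac K H S (d, s) = (d, 0) := by
  have a1 := hS d.length
  have a3 := hH d.length
  have e1 : sg ac K H S (d, s) = (d, s) := by
    unfold sg sw
    cases hac : ac d with
    | true =>
      simp only [if_true, Prod.mk.injEq, true_and]
      rw [if_neg (by omega), if_neg (by omega)]
    | false =>
      simp only [Bool.false_eq_true, if_false, Prod.mk.injEq, true_and]
      rw [if_neg (by omega), if_neg (by omega)]
  have e2 : stp φ φi K H (d, s) = d := by
    unfold stp
    simp only
    rw [if_neg (by omega), if_neg (by omega), if_neg (by omega), if_neg (by omega),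
      if_neg (by omega)]
  unfold F
  rw [e1]
  unfold mv ro
  rw [e2]
  simp only [Prod.mk.injEq, true_and]
  rw [if_neg (by omega), if_pos hs]

include hS hH in
theorem F_fix {d : List Bool} {s : ℕ} (hs : S d.length ≤ s)
    (h3 : s ≠ S d.length ∨ ac d = false) (h4 : s ≠ S d.length + 1 ∨ ac d = true) :
    F φ φi ac K H S (d, s) = (d, s) := by
  have a1 := hS d.length
  have a3 := hH d.length
  have e1 : sg ac K H S (d, s) = (d, s) := by
    unfold sg sw
    cases hac : ac d with
    | true =>
      rw [hac] at h3
      have : s ≠ S d.length := by simpa using h3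
      simp only [if_true, Prod.mk.injEq, true_and]
      rw [if_neg (by omega), if_neg this]
    | false =>
      rw [hac] at h4
      have : s ≠ S d.length + 1 := by simpa using h4
      simp only [Bool.false_eq_true, if_false, Prod.mk.injEq, true_and]
      rw [if_neg (by omega), if_neg this]
  have e2 : stp φ φi K H (d, s) = d := by
    unfold stp
    simp only
    rw [if_neg (by omega), if_neg (by omega), if_neg (by omega), if_neg (by omega),
      if_neg (by omega)]
  unfold F
  rw [e1]
  unfold mv ro
  rw [e2]
  simp only [Prod.mk.injEq, true_and]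
  rw [if_neg (by omega), if_neg (by omega)]

theorem stp_a {d : List Bool} {s : ℕ} (h : s < K d.length) : stp φ φi K H (d, s) = φ d := by
  unfold stp
  simp only
  rw [if_pos h]

theorem stp_b {d : List Bool} {s : ℕ} (h : K d.length ≤ s) (h' : s < 2 * K d.length) :
    stp φ φi K H (d, s) = φi d := by
  unfold stp
  simp only
  rw [if_neg (by omega), if_pos h']

theorem stp_c {d : List Bool} {s : ℕ} (h : 2 * K d.length ≤ s) (h' : s < H d.length) :
    stp φ φi K H (d, s) = d := by
  unfold stp
  simp only
  rw [if_neg (by omega), if_neg (by omega), if_pos h']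

theorem stp_d {d : List Bool} {s : ℕ} (h0 : 2 * K d.length < H d.length) (h : H d.length ≤ s)
    (h' : s < H d.length + K d.length) : stp φ φi K H (d, s) = φ d := by
  unfold stp
  simp only
  rw [if_neg (by omega), if_neg (by omega), if_neg (by omega), if_pos h']

theorem stp_e {d : List Bool} {s : ℕ} (h0 : 2 * K d.length < H d.length)
    (h : H d.length + K d.length ≤ s) (h' : s < H d.length + 2 * K d.length) :
    stp φ φi K H (d, s) = φi d := by
  unfold stp
  simp only
  rw [if_neg (by omega), if_neg (by omega), if_neg (by omega), if_neg (by omega), if_pos h']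

theorem stp_f {d : List Bool} {s : ℕ} (h : H d.length + 2 * K d.length ≤ s) : stp φ φi K H (d, s) = d := by
  unfold stp
  simp only
  rw [if_neg (by omega), if_neg (by omega), if_neg (by omega), if_neg (by omega),
    if_neg (by omega)]

end dyn

end Pool.Agent.W890.LC
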