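import Pool.Agent.W890.LC.Twist

/-!
# Positions and distances on the cycles of the dynamics
-/

namespace Pool.Agent.W890.LC

open Pool.Agent.NPC Pool.Agent.NPC.PIso
open Pool.Agent.W903.GP (pconst iterate_inv inv_length iter_length)

section dyn

variable {φ φi : List Bool → List Bool} {ac : List Bool → Bool} {K H S : ℕ → ℕ}

/-- the number of steps of `φ` which lead to the point where the answer is read -/
def kap (K H : ℕ → ℕ) (n s : ℕ) : ℕ :=
  if s ≤ 2 * K n then s - K n else if s ≤ H n then K n else H n + K n - s

/-- the answer, for positions in the middle part -/
def ans (φ : List Bool → List Bool) (ac : List Bool → Bool) (K H : ℕ → ℕ) (p : List Bool × ℕ) :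
    Bool := ac (φ^[kap K H p.1.length p.2] p.1)

/-- the position on the cycle -/
def tp (φ : List Bool → List Bool) (ac : List Bool → Bool) (K H S : ℕ → ℕ) (p : List Bool × ℕ) :
    ℕ :=
  if p.2 ≤ K p.1.length then p.2
  else if p.2 ≤ H p.1.length + K p.1.length then p.2 + (bif ans φ ac K H p then 1 else 0)
  else if p.2 < S p.1.length then p.2 + 1
  else if p.2 = S p.1.length then K p.1.length + 1
  else H p.1.length + K p.1.length + 1

variable (h1 : ∀ d, φ (φi d) = d) (h2 : ∀ d, φi (φ d) = d) (hl : ∀ d, (φ d).length = d.length)
  (hl' : ∀ d, (φi d).length = d.length) (hK : ∀ n, 1 ≤ K n) (hH : ∀ n, 2 * K n < H n)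
  (hS : ∀ n, H n + 2 * K n < S n)

theorem tp_lo {d : List Bool} {s : ℕ} (h : s ≤ K d.length) : tp φ ac K H S (d, s) = s := by
  unfold tp
  simp only
  rw [if_pos h]

theorem tp_mid {d : List Bool} {s : ℕ} (h : K d.length < s) (h' : s ≤ H d.length + K d.length) :
    tp φ ac K H S (d, s) = s + (bif ans φ ac K H (d, s) then 1 else 0) := by
  unfold tp
  simp only
  rw [if_neg (by omega), if_pos h']

theorem tp_hi {d : List Bool} {s : ℕ} (h : H d.length + K d.length < s) (h' : s < S d.length) :
    tp φ ac K H S (d, s) = s + 1 := by
  unfold tp
  simp only
  rw [if_neg (by omega), if_neg (by omega), if_pos h']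

include hS in
theorem tp_S {d : List Bool} : tp φ ac K H S (d, S d.length) = K d.length + 1 := by
  have a1 := hS d.length
  unfold tp
  simp only
  rw [if_neg (by omega), if_neg (by omega), if_neg (by omega)]
  exact if_pos trivial

include hS in
theorem tp_S1 {d : List Bool} :
    tp φ ac K H S (d, S d.length + 1) = H d.length + K d.length + 1 := by
  have a1 := hS d.length
  unfold tp
  simp only
  rw [if_neg (by omega), if_neg (by omega), if_neg (by omega), if_neg (by omega)]

include h1 h2 hl hl' hK hH hS

/-- **The position increases by one.** -/
theorem tp_step (d : List Bool) (s : ℕ) (hm : F φ φi ac K H S (d, s) ≠ (d, s)) :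
    tp φ ac K H S (F φ φi ac K H S (d, s)) = tp φ ac K H S (d, s) + 1 ∨
      (tp φ ac K H S (d, s) = S d.length ∧ tp φ ac K H S (F φ φi ac K H S (d, s)) = 0) := by
  have a1 := hS d.length
  have a2 := hK d.length
  have a3 := hH d.length
  rcases lt_trichotomy s (K d.length) with c1 | c1 | c1
  · -- the first forward run
    left
    rw [F_run hl hl' (by omega) (Or.inl (by omega)) (Or.inl (by omega)), stp_a c1,
      tp_lo (by rw [hl]; omega), tp_lo (by omega)]
  · subst c1
    left
    cases hac : ac d with
    | true => rw [F_K hS hac, tp_S hS, tp_lo le_rfl]
    | false =>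
      rw [F_run hl hl' (by omega) (Or.inr hac) (Or.inl (by omega)), stp_b le_rfl (by omega),
        tp_lo (d := d) le_rfl, tp_mid (by rw [hl']; omega) (by rw [hl']; omega)]
      have : ans φ ac K H (φi d, K d.length + 1) = false := by
        unfold ans kap
        simp only [hl']
        rw [if_pos (by omega), Nat.add_sub_cancel_left, Function.iterate_one, h1, hac]
      rw [this, cond_false]
  · rcases lt_or_ge s (2 * K d.length) with c2 | c2
    · -- the first backward run
      left
      rw [F_run hl hl' (by omega) (Or.inl (by omega)) (Or.inl (by omega)), stp_b (by omega) c2,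
        tp_mid (d := d) (by omega) (by omega), tp_mid (by rw [hl']; omega) (by rw [hl']; omega)]
      have : ans φ ac K H (φi d, s + 1) = ans φ ac K H (d, s) := by
        unfold ans kap
        simp only [hl']
        rw [if_pos (by omega), if_pos (by omega), show s + 1 - K d.length = (s - K d.length) + 1
          by omega, Function.iterate_succ_apply, h1]
      rw [this]
      omega
    · rcases lt_or_ge s (H d.length) with c3 | c3
      · -- at rest
        left
        rw [F_run hl hl' (by omega) (Or.inl (by omega)) (Or.inl (by omega)), stp_c c2 c3,
          tp_mid (d := d) (by omega) (by omega), tp_mid (by omega) (by omega)]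
        have : ans φ ac K H (d, s + 1) = ans φ ac K H (d, s) := by
          have e : ∀ s', 2 * K d.length ≤ s' → s' ≤ H d.length →
              kap K H d.length s' = K d.length := by
            intro s' h h'
            unfold kap
            split_ifs <;> omega
          unfold ans
          simp only
          rw [e s c2 (by omega), e (s + 1) (by omega) (by omega)]
        rw [this]
        omega
      · rcases lt_or_ge s (H d.length + K d.length) with c4 | c4
        · -- the second forward run
          left
          rw [F_run hl hl' (by omega) (Or.inl (by omega)) (Or.inl (by omega)), stp_d a3 c3 c4,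
            tp_mid (d := d) (by omega) (by omega), tp_mid (by rw [hl]; omega) (by rw [hl]; omega)]
          have : ans φ ac K H (φ d, s + 1) = ans φ ac K H (d, s) := by
            have e : kap K H d.length s = kap K H d.length (s + 1) + 1 := by
              unfold kap
              split_ifs <;> omega
            unfold ans
            simp only [hl]
            rw [e, Function.iterate_succ_apply]
          rw [this]
          omega
        · rcases lt_or_ge s (S d.length) with c5 | c5
          · by_cases c6 : s = H d.length + K d.length
            · subst c6
              have e : ans φ ac K H (d, H d.length + K d.length) = ac d := by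
                unfold ans kap
                simp only
                rw [if_neg (by omega), if_neg (by omega), Nat.sub_self]
                rfl
              left
              rw [tp_mid (d := d) (by omega) (by omega), e]
              cases hac : ac d with
              | true =>
                rw [F_run hl hl' (by omega) (Or.inl (by omega)) (Or.inr hac),
                  stp_e a3 le_rfl (by omega), tp_hi (by rw [hl']; omega) (by rw [hl']; omega)]
                rfl
              | false =>
                rw [F_HK hS hac, tp_S1 hS]
                rfl
            · by_cases c7 : s + 1 = S d.length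
              · right
                rw [F_last hH hS c7 (by omega) a2, tp_hi (d := d) (s := s) (by omega) c5,
                  tp_lo (d := d) (s := 0) (by omega)]
                exact ⟨c7, rfl⟩
              · left
                have e : (stp φ φi K H (d, s)).length = d.length := stp_length hl hl' d s
                rw [F_run hl hl' (by omega) (Or.inl (by omega)) (Or.inl (by omega)),
                  tp_hi (by rw [e]; omega) (by rw [e]; omega), tp_hi (by omega) c5]
          · by_cases c6 : s = S d.length
            · subst c6
              cases hac : ac d with
              | true =>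
                left
                have e : ans φ ac K H (φi d, K d.length + 1) = true := by
                  unfold ans kap
                  simp only [hl']
                  rw [if_pos (by omega), Nat.add_sub_cancel_left, Function.iterate_one, h1, hac]
                rw [F_S hK hH hS hl' hac, tp_S hS,
                  tp_mid (by rw [hl']; omega) (by rw [hl']; omega), e]
                rfl
              | false =>
                exact absurd (F_fix hH hS le_rfl (Or.inr hac) (Or.inl (by omega))) hm
            · by_cases c7 : s = S d.length + 1
              · subst c7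
                cases hac : ac d with
                | true =>
                  exact absurd (F_fix hH hS (by omega) (Or.inl (by omega)) (Or.inr hac)) hm
                | false =>
                  left
                  rw [F_S1 hK hH hS hl' hac, tp_S1 hS,
                    tp_hi (by rw [hl']; omega) (by rw [hl']; omega)]
              · exact absurd (F_fix hH hS (by omega) (Or.inl c6) (Or.inl c7)) hm

omit h1 h2 hl hl' hK hH hS

/-! ### The two halves of a cycle -/

theorem iter_len {φ : List Bool → List Bool} (hl : ∀ d, (φ d).length = d.length) (j : ℕ)
    (d : List Bool) : (φ^[j] d).length = d.length := iter_length hl j d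

include hl hl' hH hS

theorem seg1 (d : List Bool) : ∀ j ≤ K d.length,
    (F φ φi ac K H S)^[j] (d, 0) = (φ^[j] d, j) := by
  have a1 := hS d.length
  have a3 := hH d.length
  intro j
  induction j with
  | zero => intro _; rfl
  | succ j ih =>
    intro hj
    have e := iter_len hl j d
    rw [Function.iterate_succ_apply', ih (by omega), Function.iterate_succ_apply',
      F_run hl hl' (by rw [e]; omega) (Or.inl (by rw [e]; omega)) (Or.inl (by rw [e]; omega)),
      stp_a (by rw [e]; omega)]

theorem seg2 (z : List Bool) : ∀ j, j + 1 ≤ K z.length →
    (F φ φi ac K H S)^[j] (φi z, K z.length + 1) = (φi^[j + 1] z, K z.length + 1 + j) := by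
  have a1 := hS z.length
  have a3 := hH z.length
  intro j
  induction j with
  | zero => intro _; rfl
  | succ j ih =>
    intro hj
    have e := iter_len hl' (j + 1) z
    have e2 : φi^[j + 1 + 1] z = φi (φi^[j + 1] z) := Function.iterate_succ_apply' φi (j + 1) z
    rw [Function.iterate_succ_apply', ih (by omega), e2,
      F_run hl hl' (by rw [e]; omega) (Or.inl (by rw [e]; omega)) (Or.inl (by rw [e]; omega)),
      stp_b (by rw [e]; omega) (by rw [e]; omega)]
    rfl

theorem seg3 (d : List Bool) : ∀ j, 2 * K d.length + j ≤ H d.length → 1 ≤ K d.length →
    (F φ φi ac K H S)^[j] (d, 2 * K d.length) = (d, 2 * K d.length + j) := by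
  have a1 := hS d.length
  have a3 := hH d.length
  intro j
  induction j with
  | zero => intro _ _; rfl
  | succ j ih =>
    intro hj h0
    rw [Function.iterate_succ_apply', ih (by omega) h0,
      F_run hl hl' (by omega) (Or.inl (by omega)) (Or.inl (by omega)),
      stp_c (by omega) (by omega)]
    rfl

theorem seg4 (d : List Bool) : ∀ j ≤ K d.length,
    (F φ φi ac K H S)^[j] (d, H d.length) = (φ^[j] d, H d.length + j) := by
  have a1 := hS d.length
  have a3 := hH d.length
  intro j
  induction j with
  | zero => intro _; rfl
  | succ j ih =>
    intro hj
    have e := iter_len hl j d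
    rw [Function.iterate_succ_apply', ih (by omega), Function.iterate_succ_apply' (f := φ),
      F_run hl hl' (by rw [e]; omega) (Or.inl (by rw [e]; omega)) (Or.inl (by rw [e]; omega)),
      stp_d (by rw [e]; omega) (by rw [e]; omega) (by rw [e]; omega)]
    rfl

theorem seg5 (z : List Bool) : ∀ j, j + 1 ≤ K z.length →
    (F φ φi ac K H S)^[j] (φi z, H z.length + K z.length + 1) =
      (φi^[j + 1] z, H z.length + K z.length + 1 + j) := by
  have a1 := hS z.length
  have a3 := hH z.length
  intro j
  induction j with
  | zero => intro _; rfl
  | succ j ih =>
    intro hj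
    have e := iter_len hl' (j + 1) z
    have e2 : φi^[j + 1 + 1] z = φi (φi^[j + 1] z) := Function.iterate_succ_apply' φi (j + 1) z
    rw [Function.iterate_succ_apply', ih (by omega), e2,
      F_run hl hl' (by rw [e]; omega) (Or.inl (by rw [e]; omega)) (Or.inl (by rw [e]; omega)),
      stp_e (by rw [e]; omega) (by rw [e]; omega) (by rw [e]; omega)]
    rfl

theorem seg6 (d : List Bool) : ∀ j, H d.length + 2 * K d.length + j < S d.length →
    1 ≤ K d.length → (F φ φi ac K H S)^[j] (d, H d.length + 2 * K d.length) =
      (d, H d.length + 2 * K d.length + j) := by
  have a1 := hS d.length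
  have a3 := hH d.length
  intro j
  induction j with
  | zero => intro _ _; rfl
  | succ j ih =>
    intro hj h0
    rw [Function.iterate_succ_apply', ih (by omega) h0,
      F_run hl hl' (by omega) (Or.inl (by omega)) (Or.inl (by omega)),
      stp_f (by omega)]
    rfl

include h2 hK

theorem half1 (d : List Bool) :
    (F φ φi ac K H S)^[H d.length + bif ac (φ^[K d.length] d) then 1 else 0] (d, 0) =
      (d, H d.length) := by
  have a1 := hS d.length
  have a2 := hK d.length
  have a3 := hH d.length
  have ez := iter_len hl (K d.length) d
  have hinv : ∀ j (z : List Bool), φi^[j] (φ^[j] z) = z := fun j z =>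
    Function.LeftInverse.iterate h2 j z
  have e5 : ∀ p, (F φ φi ac K H S)^[K d.length] p =
      (F φ φi ac K H S)^[K d.length - 1] (F φ φi ac K H S p) := fun p => by
    rw [← Function.iterate_succ_apply, Nat.succ_eq_add_one, Nat.sub_add_cancel a2]
  -- from the turning point
  have key : (F φ φi ac K H S)^[K d.length + bif ac (φ^[K d.length] d) then 1 else 0]
      (φ^[K d.length] d, K d.length) = (d, 2 * K d.length) := by
    have s2 := seg2 (ac := ac) (K := K) (S := S) hl hl' hH hS (φ^[K d.length] d) (K d.length - 1)
      (by rw [ez]; omega)
    rw [ez, Nat.sub_add_cancel a2, hinv, show K d.length + 1 + (K d.length - 1) = 2 * K d.length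
      by omega] at s2
    cases hac : ac (φ^[K d.length] d) with
    | true =>
      have e1 := F_K (φ := φ) (φi := φi) (K := K) (H := H) hS hac
      have e2 := F_S (φ := φ) hK hH hS hl' hac
      rw [ez] at e1 e2
      rw [cond_true, show K d.length + 1 = (K d.length - 1) + 1 + 1 by omega,
        Function.iterate_succ_apply, e1, Function.iterate_succ_apply, e2]
      exact s2
    | false =>
      have e1 := F_run (φ := φ) (φi := φi) (ac := ac) (K := K) (H := H) (S := S)
        (d := φ^[K d.length] d) (s := K d.length) hl hl' (by rw [ez]; omega) (Or.inr hac)
        (Or.inl (by rw [ez]; omega))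
      rw [stp_b (by rw [ez]) (by rw [ez]; omega)] at e1
      rw [cond_false, Nat.add_zero, e5, e1]
      exact s2
  have e3 := seg3 (ac := ac) hl hl' hH hS d (H d.length - 2 * K d.length) (by omega) a2
  rw [show H d.length + (bif ac (φ^[K d.length] d) then 1 else 0) =
    (H d.length - 2 * K d.length) + ((K d.length + bif ac (φ^[K d.length] d) then 1 else 0) +
      K d.length) by omega, Function.iterate_add_apply, Function.iterate_add_apply,
    seg1 hl hl' hH hS d _ le_rfl, key, e3]
  congr 1
  omega

theorem half2 (d : List Bool) :
    (F φ φi ac K H S)^[S d.length - H d.length + bif ac (φ^[K d.length] d) then 0 else 1]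
      (d, H d.length) = (d, 0) := by
  have a1 := hS d.length
  have a2 := hK d.length
  have a3 := hH d.length
  have ez := iter_len hl (K d.length) d
  have hinv : ∀ j (z : List Bool), φi^[j] (φ^[j] z) = z := fun j z =>
    Function.LeftInverse.iterate h2 j z
  have e5 : ∀ p, (F φ φi ac K H S)^[K d.length] p =
      (F φ φi ac K H S)^[K d.length - 1] (F φ φi ac K H S p) := fun p => by
    rw [← Function.iterate_succ_apply, Nat.succ_eq_add_one, Nat.sub_add_cancel a2]
  have key : (F φ φi ac K H S)^[K d.length + bif ac (φ^[K d.length] d) then 0 else 1]
      (φ^[K d.length] d, H d.length + K d.length) = (d, H d.length + 2 * K d.length) := by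
    have s2 := seg5 (ac := ac) (K := K) (S := S) hl hl' hH hS (φ^[K d.length] d) (K d.length - 1)
      (by rw [ez]; omega)
    rw [ez, Nat.sub_add_cancel a2, hinv, show H d.length + K d.length + 1 + (K d.length - 1) =
      H d.length + 2 * K d.length by omega] at s2
    cases hac : ac (φ^[K d.length] d) with
    | false =>
      have e1 := F_HK (φ := φ) (φi := φi) (K := K) (H := H) hS hac
      have e2 := F_S1 (φ := φ) hK hH hS hl' hac
      rw [ez] at e1 e2
      rw [cond_false, show K d.length + 1 = (K d.length - 1) + 1 + 1 by omega,
        Function.iterate_succ_apply, e1, Function.iterate_succ_apply, e2]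
      exact s2
    | true =>
      have e1 := F_run (φ := φ) (φi := φi) (ac := ac) (K := K) (H := H) (S := S)
        (d := φ^[K d.length] d) (s := H d.length + K d.length) hl hl' (by rw [ez]; omega)
        (Or.inl (by rw [ez]; omega)) (Or.inr hac)
      rw [stp_e (by rw [ez]; omega) (by rw [ez]) (by rw [ez]; omega)] at e1
      rw [cond_true, Nat.add_zero, e5, e1]
      exact s2
  have e3 := seg6 (ac := ac) hl hl' hH hS d (S d.length - 1 - (H d.length + 2 * K d.length))
    (by omega) a2
  rw [show S d.length - H d.length + (bif ac (φ^[K d.length] d) then 0 else 1) =
    1 + ((S d.length - 1 - (H d.length + 2 * K d.length)) +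
      ((K d.length + bif ac (φ^[K d.length] d) then 0 else 1) + K d.length)) by omega,
    Function.iterate_add_apply, Function.iterate_add_apply, Function.iterate_add_apply,
    seg4 hl hl' hH hS d _ le_rfl, key, e3, Function.iterate_one]
  exact F_last hH hS (by omega) (by omega) a2

end dyn

end Pool.Agent.W890.LC
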