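import Pool.Agent.W903.GP.Groups
import Mathlib.NumberTheory.FrobeniusNumber

/-!
# Walks in a finite digraph, and canonical closed walks computable in polynomial time
-/

namespace Pool.Agent.W890.LC

open Pool.Agent.NPC Pool.Agent.NPC.PIso
open Pool.Agent.W903.GP (pconst)

variable {k : ℕ}

/-- there is a walk of length `n` from `u` to `v` -/
def Wlk (E : Fin k → Fin k → Prop) (n : ℕ) (u v : Fin k) : Prop :=
  ∃ w : ℕ → Fin k, w 0 = u ∧ w n = v ∧ ∀ i < n, E (w i) (w (i + 1))

theorem Wlk.zero (E : Fin k → Fin k → Prop) (v : Fin k) : Wlk E 0 v v :=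
  ⟨fun _ => v, rfl, rfl, fun i hi => absurd hi (Nat.not_lt_zero i)⟩

theorem Wlk.add {E : Fin k → Fin k → Prop} {n m : ℕ} {u v w : Fin k} (h : Wlk E n u v)
    (h' : Wlk E m v w) : Wlk E (n + m) u w := by
  obtain ⟨a, a0, an, ha⟩ := h
  obtain ⟨b, b0, bm, hb⟩ := h'
  refine ⟨fun i => if i < n then a i else b (i - n), ?_, ?_, ?_⟩
  · by_cases h0 : 0 < n
    · simp only [h0, if_true]; exact a0
    · have : n = 0 := by omega
      subst this
      simp only [lt_irrefl, if_false, Nat.sub_zero]
      rw [b0, ← an, a0]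
  · have : ¬ (n + m < n) := by omega
    simp only [this, if_false, Nat.add_sub_cancel_left]
    exact bm
  · intro i hi
    by_cases h1 : i + 1 < n
    · have h2 : i < n := by omega
      simp only [h1, h2, if_true]
      exact ha i h2
    · by_cases h2 : i < n
      · have h3 : i + 1 = n := by omega
        have h4 : i + 1 - n = 0 := by omega
        simp only [h1, h2, if_true, if_false, h4]
        rw [b0, ← an, ← h3]
        exact ha i h2
      · have h3 : i + 1 - n = (i - n) + 1 := by omega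
        simp only [h1, h2, if_false, h3]
        exact hb _ (by omega)

theorem Wlk.mul {E : Fin k → Fin k → Prop} {n : ℕ} {v : Fin k} (h : Wlk E n v v) (m : ℕ) :
    Wlk E (n * m) v v := by
  induction m with
  | zero => exact Wlk.zero E v
  | succ m ih => rw [Nat.mul_succ]; exact ih.add h

/-- the lengths of the closed walks at `v` -/
def cls (E : Fin k → Fin k → Prop) (v : Fin k) : AddSubmonoid ℕ where
  carrier := {n | Wlk E n v v}
  zero_mem' := Wlk.zero E v
  add_mem' := fun h h' => Wlk.add h h'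

theorem mem_cls {E : Fin k → Fin k → Prop} {v : Fin k} {n : ℕ} : n ∈ cls E v ↔ Wlk E n v v :=
  Iff.rfl

/-- If no vertex has closed walks of all large lengths then at every vertex all the lengths of
closed walks have a common divisor at least two. -/
theorem exists_period {E : Fin k → Fin k → Prop}
    (h : ¬ ∃ v N, ∀ n ≥ N, Wlk E n v v) (v : Fin k) :
    ∃ g, 2 ≤ g ∧ ∀ n, Wlk E n v v → g ∣ n := by
  by_cases h0 : Nat.setGcd (cls E v : Set ℕ) = 0
  · refine ⟨2, le_rfl, fun n hn => ?_⟩
    rw [Nat.setGcd_eq_zero_iff] at h0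
    have : n = 0 := h0 (show n ∈ (cls E v : Set ℕ) from hn)
    rw [this]
    exact dvd_zero 2
  · by_cases h1 : Nat.setGcd (cls E v : Set ℕ) = 1
    · exfalso
      obtain ⟨N, hN⟩ := Nat.exists_mem_closure_of_ge (cls E v : Set ℕ)
      apply h
      refine ⟨v, N, fun n hn => ?_⟩
      have := hN n hn (by rw [h1]; exact one_dvd n)
      rw [AddSubmonoid.closure_eq] at this
      exact this
    · exact ⟨_, by omega, fun n hn => Nat.setGcd_dvd_of_mem (show n ∈ (cls E v : Set ℕ) from hn)⟩

/-- a common modulus -/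
theorem exists_modulus {E : Fin k → Fin k → Prop}
    (h : ¬ ∃ v N, ∀ n ≥ N, Wlk E n v v) {v₀ : Fin k} {a : ℕ} (ha : 0 < a) (h₀ : Wlk E a v₀ v₀) :
    ∃ T, 2 ≤ T ∧ Wlk E T v₀ v₀ ∧ ∀ v n, n % T = 1 → ¬ Wlk E n v v := by
  choose g hg1 hg2 using exists_period h
  have hprod : 0 < ∏ v, g v := Finset.prod_pos fun v _ => by have := hg1 v; omega
  have hdvd : ∀ v, g v ∣ ∏ v, g v := fun v => Finset.dvd_prod_of_mem g (Finset.mem_univ v)
  have h2 : 2 ≤ ∏ v, g v := (hg1 v₀).trans (Nat.le_of_dvd hprod (hdvd v₀))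
  refine ⟨a * ∏ v, g v, ?_, h₀.mul _, ?_⟩
  · calc 2 ≤ ∏ v, g v := h2
      _ ≤ a * ∏ v, g v := Nat.le_mul_of_pos_left _ ha
  · intro v n hn hw
    have h3 : g v ∣ n := hg2 v n hw
    have h4 : g v ∣ a * ∏ v, g v := (hdvd v).mul_left a
    have h5 : g v ∣ 1 := by
      rw [← hn]
      exact (Nat.dvd_mod_iff h4).2 h3
    have := Nat.le_of_dvd one_pos h5
    have := hg1 v
    omega

/-! ### Tables -/

theorem poly_cases {α β : Type} [TEnc α] [TEnc β] {r : α → ℕ} (hr : Pool.Agent.NPC.Poly r)
    (G : ℕ → α → β) (hG : ∀ i, Pool.Agent.NPC.Poly (G i)) {H : α → β}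
    (hH : Pool.Agent.NPC.Poly H) (B : ℕ) :
    Pool.Agent.NPC.Poly (fun a => bif decide (r a < B) then G (r a) a else H a) := by
  induction B with
  | zero => exact hH.congr fun a => by simp
  | succ B ih =>
    refine (Poly.cond (Poly.decide_eq hr (pconst B)) (hG B) ih).congr fun a => ?_
    by_cases h1 : r a = B
    · have h2 : r a < B + 1 := by omega
      rw [decide_eq_true h1, decide_eq_true h2, cond_true, cond_true, h1]
    · by_cases h3 : r a < B
      · have h2 : r a < B + 1 := by omega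
        rw [decide_eq_false h1, decide_eq_true h2, decide_eq_true h3, cond_true, cond_false]
      · have h2 : ¬ r a < B + 1 := by omega
        rw [decide_eq_false h1, decide_eq_false h2, decide_eq_false h3, cond_false, cond_false]

section template

variable {E : Fin k → Fin k → Prop} {v : Fin k} {a : ℕ} (ha : 0 < a) (hv : Wlk E a v v)

/-- the walk made of `W`, of length `m`, followed by repetitions of `C`, of length `a` -/
def wlkOf (a m : ℕ) (W C : ℕ → Fin k) (p : ℕ) : Fin k :=
  bif decide (p < m) then W p else C ((p - m) % a)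

theorem wlkOf_spec {m n : ℕ} {W C : ℕ → Fin k} (ha : 0 < a)
    (C0 : C 0 = v) (Ca : C a = v) (hC : ∀ i < a, E (C i) (C (i + 1)))
    (W0 : W 0 = v) (Wm : W m = v) (hW : ∀ i < m, E (W i) (W (i + 1)))
    (hmn : m ≤ n) (hmod : m % a = n % a) :
    wlkOf a m W C 0 = v ∧ wlkOf a m W C n = v ∧
      ∀ p < n, E (wlkOf a m W C p) (wlkOf a m W C (p + 1)) := by
  refine ⟨?_, ?_, ?_⟩
  · unfold wlkOf
    by_cases h : 0 < m
    · rw [decide_eq_true h, cond_true, W0]
    · rw [decide_eq_false h, cond_false, Nat.zero_sub, Nat.zero_mod, C0]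
  · unfold wlkOf
    rw [decide_eq_false (by omega), cond_false]
    have : (n - m) % a = 0 := (Nat.modEq_iff_dvd' hmn).1 hmod |> Nat.mod_eq_zero_of_dvd
    rw [this, C0]
  · intro p _
    unfold wlkOf
    by_cases h1 : p + 1 < m
    · rw [decide_eq_true h1, decide_eq_true (show p < m by omega), cond_true, cond_true]
      exact hW p (by omega)
    · by_cases h2 : p < m
      · have h3 : p + 1 = m := by omega
        rw [decide_eq_true h2, decide_eq_false h1, cond_true, cond_false, h3, Nat.sub_self,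
          Nat.zero_mod, C0, ← Wm, ← h3]
        exact hW p h2
      · rw [decide_eq_false h2, decide_eq_false h1, cond_false, cond_false]
        have h3 : p + 1 - m = (p - m) + 1 := by omega
        rw [h3]
        generalize p - m = q
        have hq := Nat.mod_lt q ha
        by_cases h4 : q % a + 1 < a
        · have h5 : (q + 1) % a = q % a + 1 := by
            rw [Nat.add_mod, Nat.mod_eq_of_lt (show 1 < a by omega), Nat.mod_eq_of_lt h4]
          rw [h5]
          exact hC _ hq
        · have h6 : q % a + 1 = a := by omega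
          have h5 : (q + 1) % a = 0 := by
            have : (q + 1) % a = (q % a + 1) % a := by simp [Nat.add_mod]
            rw [this, h6, Nat.mod_self]
          rw [h5, C0]
          have h7 := hC _ hq
          rw [h6, Ca] at h7
          exact h7

theorem poly_wlkOf (a m : ℕ) (ha : 0 < a) (W C : ℕ → Fin k) {α : Type} [TEnc α] {p : α → ℕ}
    (hp : Pool.Agent.NPC.Poly p) :
    Pool.Agent.NPC.Poly (fun x => ((wlkOf a m W C (p x) : Fin k) : ℕ)) := by
  have h1 : Pool.Agent.NPC.Poly (fun x : α => (p x - m) % a) :=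
    Poly.mod (Poly.sub hp (pconst m)) (pconst a)
  have h2 := poly_cases h1 (fun i _ => ((C i : Fin k) : ℕ)) (fun i => pconst _) (pconst 0) a
  refine (poly_cases hp (fun i _ => ((W i : Fin k) : ℕ)) (fun i => pconst _) h2 m).congr
    fun x => ?_
  unfold wlkOf
  rw [decide_eq_true (Nat.mod_lt (p x - m) ha)]
  cases decide (p x < m) <;> simp

include ha hv

/-- Canonical closed walks at a vertex which has a closed walk of positive length. -/
theorem exists_template :
    ∃ (wv : ℕ → ℕ → Fin k) (gd : ℕ → Bool),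
      Pool.Agent.NPC.Poly (fun p : ℕ × ℕ => ((wv p.1 p.2 : Fin k) : ℕ)) ∧
      Pool.Agent.NPC.Poly gd ∧ (∀ n, gd n = true ↔ Wlk E n v v) ∧
      ∀ n, Wlk E n v v → wv n 0 = v ∧ wv n n = v ∧ ∀ p < n, E (wv n p) (wv n (p + 1)) := by
  classical
  obtain ⟨C, C0, Ca, hC⟩ := hv
  have key : ∀ r : ℕ, ∃ (m : ℕ) (W : ℕ → Fin k) (ex : Bool),
      (ex = true → m % a = r ∧ W 0 = v ∧ W m = v ∧ ∀ i < m, E (W i) (W (i + 1))) ∧
      ∀ n, n % a = r → Wlk E n v v → ex = true ∧ m ≤ n := by
    intro r
    by_cases h : ∃ n, n % a = r ∧ Wlk E n v v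
    · obtain ⟨h1, W, W0, Wm, hW⟩ := Nat.find_spec h
      refine ⟨Nat.find h, W, true, fun _ => ⟨h1, W0, Wm, hW⟩, fun n hn hw => ⟨rfl, ?_⟩⟩
      exact Nat.find_min' h ⟨hn, hw⟩
    · refine ⟨0, fun _ => v, false, fun h => absurd h (by simp), fun n hn hw => ?_⟩
      exact absurd ⟨n, hn, hw⟩ h
  choose m W ex h1 h2 using key
  have hspec : ∀ n, ex (n % a) = true → m (n % a) ≤ n →
      wlkOf a (m (n % a)) (W (n % a)) C 0 = v ∧ wlkOf a (m (n % a)) (W (n % a)) C n = v ∧
      ∀ p < n, E (wlkOf a (m (n % a)) (W (n % a)) C p)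
        (wlkOf a (m (n % a)) (W (n % a)) C (p + 1)) := by
    intro n hn hm
    obtain ⟨g1, g2, g3, g4⟩ := h1 _ hn
    exact wlkOf_spec ha C0 Ca hC g2 g3 g4 hm g1
  refine ⟨fun n p => wlkOf a (m (n % a)) (W (n % a)) C p,
    fun n => ex (n % a) && decide (m (n % a) ≤ n), ?_, ?_, ?_, ?_⟩
  · have e1 : Pool.Agent.NPC.Poly (fun p : ℕ × ℕ => p.1) := Poly.fst Pool.Agent.NPC.Poly.id
    have e2 : Pool.Agent.NPC.Poly (fun p : ℕ × ℕ => p.2) := Poly.snd Pool.Agent.NPC.Poly.id
    refine (poly_cases (Poly.mod e1 (pconst a))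
      (fun r (p : ℕ × ℕ) => ((wlkOf a (m r) (W r) C p.2 : Fin k) : ℕ))
      (fun r => poly_wlkOf a (m r) ha (W r) C e2) (pconst 0) a).congr fun p => ?_
    rw [decide_eq_true (Nat.mod_lt p.1 ha), cond_true]
  · have e1 : Pool.Agent.NPC.Poly (fun n : ℕ => n) := Pool.Agent.NPC.Poly.id
    refine (poly_cases (Poly.mod e1 (pconst a)) (fun r (n : ℕ) => ex r && decide (m r ≤ n))
      (fun r => Poly.and (pconst _) (Poly.decide_le (pconst _) e1)) (pconst false) a).congr
      fun n => ?_
    rw [decide_eq_true (Nat.mod_lt n ha), cond_true]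
  · intro n
    rw [Bool.and_eq_true, decide_eq_true_iff]
    constructor
    · rintro ⟨g1, g2⟩
      obtain ⟨g3, g4, g5⟩ := hspec n g1 g2
      exact ⟨_, g3, g4, g5⟩
    · intro hw
      exact h2 _ n rfl hw
  · intro n hw
    obtain ⟨g1, g2⟩ := h2 _ n rfl hw
    exact hspec n g1 g2

end template

/-- a family of closed walks -/
def IsCW (E : Fin k → Fin k → Prop) (w : ℕ → Fin k) (n : ℕ) : Prop :=
  w 0 = w n ∧ ∀ p < n, E (w p) (w (p + 1))

/-- Canonical closed walks of all possible positive lengths. -/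
theorem exists_wk (E : Fin k → Fin k → Prop) (v₀ : Fin k) :
    ∃ wk : ℕ → ℕ → Fin k, Pool.Agent.NPC.Poly (fun p : ℕ × ℕ => ((wk p.1 p.2 : Fin k) : ℕ)) ∧
      ∀ n, 0 < n → (∃ v, Wlk E n v v) → IsCW E (wk n) n := by
  have key : ∀ l : List (Fin k), ∃ wk : ℕ → ℕ → Fin k,
      Pool.Agent.NPC.Poly (fun p : ℕ × ℕ => ((wk p.1 p.2 : Fin k) : ℕ)) ∧
      ∀ n, 0 < n → (∃ v ∈ l, Wlk E n v v) → IsCW E (wk n) n := by
    intro l
    induction l with
    | nil => exact ⟨fun _ _ => v₀, pconst _, fun n _ h => by simp at h⟩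
    | cons u l ih =>
      obtain ⟨wk, h1, h2⟩ := ih
      by_cases hu : ∃ a, 0 < a ∧ Wlk E a u u
      · obtain ⟨a, ha, hu⟩ := hu
        obtain ⟨wv, gd, g1, g2, g3, g4⟩ := exists_template ha hu
        refine ⟨fun n p => bif gd n then wv n p else wk n p, ?_, ?_⟩
        · have e1 : Pool.Agent.NPC.Poly (fun p : ℕ × ℕ => gd p.1) :=
            g2.comp (Poly.fst Pool.Agent.NPC.Poly.id)
          refine (Poly.cond e1 g1 h1).congr fun p => ?_
          change (bif gd p.1 then ((wv p.1 p.2 : Fin k) : ℕ) else ((wk p.1 p.2 : Fin k) : ℕ)) =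
            ((bif gd p.1 then wv p.1 p.2 else wk p.1 p.2 : Fin k) : ℕ)
          cases gd p.1 <;> rfl
        · rintro n hn ⟨v, hv, hw⟩
          cases hg : gd n with
          | true =>
            obtain ⟨k1, k2, k3⟩ := g4 n ((g3 n).1 hg)
            have e : (fun p => bif gd n then wv n p else wk n p) = wv n := by
              rw [hg]; rfl
            change IsCW E (fun p => bif gd n then wv n p else wk n p) n
            rw [e]
            exact ⟨k1.trans k2.symm, k3⟩
          | false =>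
            have e : (fun p => bif gd n then wv n p else wk n p) = wk n := by
              rw [hg]; rfl
            change IsCW E (fun p => bif gd n then wv n p else wk n p) n
            rw [e]
            refine h2 n hn ⟨v, ?_, hw⟩
            rcases List.mem_cons.1 hv with rfl | hv
            · rw [← g3, hg] at hw
              exact absurd hw (by simp)
            · exact hv
      · refine ⟨wk, h1, ?_⟩
        rintro n hn ⟨v, hv, hw⟩
        refine h2 n hn ⟨v, ?_, hw⟩
        rcases List.mem_cons.1 hv with rfl | hv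
        · exact absurd ⟨n, hn, hw⟩ hu
        · exact hv
  obtain ⟨wk, h1, h2⟩ := key (List.finRange k)
  exact ⟨wk, h1, fun n hn ⟨v, hv⟩ => h2 n hn ⟨v, List.mem_finRange v, hv⟩⟩

end Pool.Agent.W890.LC
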